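import Pool.Agent.H671R2.PolyAuto

/-!
# Linear systems over the field with two elements are solvable in polynomial time

An equation is a list of variables together with its right-hand side.
-/

set_option autoImplicit false

namespace Pool.Agent.H210Z.Lin

open Pool.Agent.NPC

variable {α : Type} [DecidableEq α]

/-- the sum of two equations -/
def addE (U : List α) (e p : List α × Bool) : List α × Bool :=
  (U.filter (fun x => xor (decide (x ∈ e.1)) (decide (x ∈ p.1))), xor e.2 p.2)

/-- elimination of one variable -/
def elim (U : List α) (E : List (List α × Bool)) (x : α) : List (List α × Bool) :=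
  ((E.filter (fun e => decide (x ∈ e.1))).head?).elim E
    (fun p => E.map (fun e => if x ∈ e.1 then addE U e p else e))

/-- Gaussian elimination -/
def solvable (U : List α) (E : List (List α × Bool)) : Bool :=
  (U.foldl (elim U) E).all (fun e => !e.2)

/-- the left-hand side of an equation -/
def val (U : List α) (y : α → ZMod 2) (l : List α) : ZMod 2 :=
  ∑ x ∈ U.toFinset, if x ∈ l then y x else 0

/-- a bit as an element of the field -/
def b2z (b : Bool) : ZMod 2 := if b = true then 1 else 0

/-- solutions -/
def Sat (U : List α) (E : List (List α × Bool)) (y : α → ZMod 2) : Prop :=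
  ∀ e ∈ E, val U y e.1 = b2z e.2

lemma add_self' (z : ZMod 2) : z + z = 0 := CharTwo.add_self_eq_zero z

lemma b2z_xor (a b : Bool) : b2z (xor a b) = b2z a + b2z b := by
  cases a <;> cases b <;> simp [b2z]
  exact (add_self' 1).symm

lemma val_addE (U : List α) (y : α → ZMod 2) (e p : List α × Bool) :
    val U y (addE U e p).1 = val U y e.1 + val U y p.1 := by
  unfold val
  rw [← Finset.sum_add_distrib]
  refine Finset.sum_congr rfl ?_
  intro x hx
  rw [List.mem_toFinset] at hx
  by_cases h1 : x ∈ e.1 <;> by_cases h2 : x ∈ p.1 <;> simp [addE, h1, h2, hx]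
  exact (add_self' _).symm

lemma val_update_of_notMem (U : List α) (y : α → ZMod 2) (l : List α) (x : α) (t : ZMod 2)
    (h : x ∉ l) : val U (Function.update y x t) l = val U y l := by
  unfold val
  refine Finset.sum_congr rfl ?_
  intro z _
  by_cases hz : z ∈ l
  · have : z ≠ x := fun e => h (e ▸ hz)
    simp [hz, Function.update_of_ne this]
  · simp [hz]

lemma val_update_of_mem (U : List α) (y : α → ZMod 2) (l : List α) (x : α) (t : ZMod 2)
    (hU : x ∈ U) (h : x ∈ l) : val U (Function.update y x (y x + t)) l = val U y l + t := by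
  unfold val
  have hx : x ∈ U.toFinset := List.mem_toFinset.2 hU
  rw [← Finset.add_sum_erase _ _ hx, ← Finset.add_sum_erase _ _ hx]
  have : ∑ z ∈ U.toFinset.erase x, (if z ∈ l then Function.update y x (y x + t) z else 0) =
      ∑ z ∈ U.toFinset.erase x, (if z ∈ l then y z else 0) := by
    refine Finset.sum_congr rfl ?_
    intro z hz
    rw [Function.update_of_ne (Finset.ne_of_mem_erase hz)]
  rw [this]
  simp only [h, if_true, Function.update_self]
  ring

lemma elim_cases (U : List α) (E : List (List α × Bool)) (x : α) :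
    ((∀ e ∈ E, x ∉ e.1) ∧ elim U E x = E) ∨ ∃ p ∈ E, x ∈ p.1 ∧
      elim U E x = E.map (fun e => if x ∈ e.1 then addE U e p else e) := by
  unfold elim
  cases h : (E.filter (fun e => decide (x ∈ e.1))).head? with
  | none =>
    left
    rw [List.head?_eq_none_iff, List.filter_eq_nil_iff] at h
    exact ⟨fun e he => by simpa using h e he, rfl⟩
  | some p =>
    right
    have := List.mem_of_mem_head? (l := E.filter (fun e => decide (x ∈ e.1))) (a := p)
      (by rw [h]; rfl)
    rw [List.mem_filter] at this
    exact ⟨p, this.1, by simpa using this.2, rfl⟩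

lemma elim_absent (U : List α) (E : List (List α × Bool)) (x z : α)
    (h : z = x ∨ ∀ e ∈ E, z ∉ e.1) : ∀ e ∈ elim U E x, z ∉ e.1 := by
  rcases elim_cases U E x with ⟨h1, h2⟩ | ⟨p, hp, hxp, h2⟩
  · rw [h2]
    rcases h with rfl | h
    · exact h1
    · exact h
  · rw [h2]
    intro e he
    obtain ⟨e0, he0, rfl⟩ := List.mem_map.1 he
    by_cases hx : x ∈ e0.1
    · rcases h with rfl | h
      · simp [hx, addE, hxp]
      · simp [hx, addE, h e0 he0, h p hp]
    · rcases h with rfl | h
      · simp [hx]
      · simpa [hx] using h e0 he0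

lemma elim_sat (U : List α) (E : List (List α × Bool)) (x : α) (hx : x ∈ U) :
    (∃ y, Sat U (elim U E x) y) ↔ ∃ y, Sat U E y := by
  have habs := elim_absent U E x x (Or.inl rfl)
  rcases elim_cases U E x with ⟨_, h2⟩ | ⟨p, hp, hxp, h2⟩
  · rw [h2]
  · constructor
    · rintro ⟨y, hy⟩
      have h3 : Sat U (elim U E x) (Function.update y x (y x + (val U y p.1 + b2z p.2))) := by
        intro e he
        rw [val_update_of_notMem _ _ _ _ _ (habs e he)]
        exact hy e he
      have h4 : val U (Function.update y x (y x + (val U y p.1 + b2z p.2))) p.1 = b2z p.2 := by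
        rw [val_update_of_mem _ _ _ _ _ hx hxp, ← add_assoc, add_self', zero_add]
      refine ⟨Function.update y x (y x + (val U y p.1 + b2z p.2)), fun e he => ?_⟩
      · have h5 := h3 _ (h2 ▸ List.mem_map.2 ⟨e, he, rfl⟩)
        by_cases hxe : x ∈ e.1
        · simp only [hxe, if_true] at h5
          rw [val_addE, h4] at h5
          change _ = b2z (xor e.2 p.2) at h5
          rw [b2z_xor] at h5
          exact add_right_cancel h5
        · simpa only [hxe, if_false] using h5
    · rintro ⟨y, hy⟩
      refine ⟨y, ?_⟩
      rw [h2]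
      intro e he
      obtain ⟨e0, he0, rfl⟩ := List.mem_map.1 he
      by_cases hxe : x ∈ e0.1
      · simp only [hxe, if_true]
        rw [val_addE, hy e0 he0, hy p hp]
        exact (b2z_xor _ _).symm
      · simp only [hxe, if_false]
        exact hy e0 he0

lemma foldl_sat (U : List α) : ∀ (L : List α) (E : List (List α × Bool)), (∀ x ∈ L, x ∈ U) →
    ((∃ y, Sat U (L.foldl (elim U) E) y) ↔ ∃ y, Sat U E y)
  | [], _, _ => Iff.rfl
  | x :: L, E, h => by
    rw [List.foldl_cons, foldl_sat U L _ (fun z hz => h z (List.mem_cons_of_mem _ hz))]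
    exact elim_sat U E x (h x (by simp))

lemma foldl_absent (U : List α) (z : α) : ∀ (L : List α) (E : List (List α × Bool)),
    (z ∈ L ∨ ∀ e ∈ E, z ∉ e.1) → ∀ e ∈ L.foldl (elim U) E, z ∉ e.1
  | [], _, h => by
    rcases h with h | h
    · simp at h
    · exact h
  | x :: L, E, h => by
    rw [List.foldl_cons]
    apply foldl_absent U z L
    rcases h with h | h
    · rcases List.mem_cons.1 h with h | h
      · exact Or.inr (elim_absent U E x z (Or.inl h))
      · exact Or.inl h
    · exact Or.inr (elim_absent U E x z (Or.inr h))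

theorem solvable_iff (U : List α) (E : List (List α × Bool)) :
    solvable U E = true ↔ ∃ y, Sat U E y := by
  rw [← foldl_sat U U E (fun _ h => h)]
  have hz : ∀ y, ∀ e ∈ U.foldl (elim U) E, val U y e.1 = 0 := by
    intro y e he
    unfold val
    refine Finset.sum_eq_zero ?_
    intro x hx
    rw [if_neg (foldl_absent U x U E (Or.inl (List.mem_toFinset.1 hx)) e he)]
  unfold solvable
  rw [List.all_eq_true]
  constructor
  · intro h
    refine ⟨fun _ => 0, fun e he => ?_⟩
    have := h e he
    rw [hz _ e he]
    cases h2 : e.2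
    · simp [b2z]
    · simp [h2] at this
  · rintro ⟨y, hy⟩ e he
    have := hy e he
    rw [hz _ e he] at this
    cases h2 : e.2
    · rfl
    · rw [h2] at this
      simp [b2z] at this

lemma val_eq_sum (U : List α) (y : α → ZMod 2) (l : List α) (hn : l.Nodup) (hl : ∀ x ∈ l, x ∈ U) :
    val U y l = (l.map y).sum := by
  unfold val
  rw [← List.sum_toFinset y hn, ← Finset.sum_filter]
  refine Finset.sum_congr ?_ (fun _ _ => rfl)
  ext x
  simp only [Finset.mem_filter, List.mem_toFinset]
  exact ⟨fun h => h.2, fun h => ⟨hl x h, h⟩⟩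

variable [TEnc α]

omit [DecidableEq α] in
lemma sz_filter_le (l : List α) (p : α → Bool) : sz (l.filter p) ≤ sz l := by
  induction l with
  | nil => simp
  | cons a l ih =>
    rw [List.filter_cons]
    split_ifs
    · simp; omega
    · simp; omega

lemma foldl_size (U : List α) (B : ℕ) (hB : sz U + 4 ≤ B) : ∀ (L : List α)
    (E : List (List α × Bool)), (∀ e ∈ E, sz e ≤ B) →
    (∀ e ∈ L.foldl (elim U) E, sz e ≤ B) ∧ (L.foldl (elim U) E).length = E.length
  | [], _, h => ⟨h, rfl⟩
  | x :: L, E, h => by
    rw [List.foldl_cons]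
    have h1 : (∀ e ∈ elim U E x, sz e ≤ B) ∧ (elim U E x).length = E.length := by
      rcases elim_cases U E x with ⟨_, h2⟩ | ⟨p, _, _, h2⟩
      · rw [h2]; exact ⟨h, rfl⟩
      · rw [h2]
        refine ⟨?_, by simp⟩
        intro e he
        obtain ⟨e0, he0, rfl⟩ := List.mem_map.1 he
        split_ifs
        · unfold addE
          rw [sz_pair]
          have a1 := sz_filter_le U (fun x => xor (decide (x ∈ e0.1)) (decide (x ∈ p.1)))
          have a2 := sz_bool_le (xor e0.2 p.2)
          omega
        · exact h e0 he0
    have h2 := foldl_size U B hB L _ h1.1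
    exact ⟨h2.1, h2.2.trans h1.2⟩

lemma poly_addE : NPC.Poly (fun a : List α × (List α × Bool) × (List α × Bool) =>
    addE a.1 a.2.1 a.2.2) := by
  unfold addE
  fun_prop

lemma poly_elim :
    NPC.Poly (fun a : List α × List (List α × Bool) × α => elim a.1 a.2.1 a.2.2) := by
  unfold elim
  refine NPC.Poly.optElim (o := fun (a : List α × List (List α × Bool) × α) =>
    (a.2.1.filter (fun e => decide (a.2.2 ∈ e.1))).head?)
    (g := fun (a : List α × List (List α × Bool) × α) => a.2.1)
    (h := fun (a : List α × List (List α × Bool) × α) p =>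
    a.2.1.map (fun e => if a.2.2 ∈ e.1 then addE a.1 e p else e)) (by fun_prop) (by fun_prop) ?_
  refine NPC.Poly.map
    (l := fun p : (List α × List (List α × Bool) × α) × (List α × Bool) => p.1.2.1)
    (F := fun p e => if p.1.2.2 ∈ e.1 then addE p.1.1 e p.2 else e) (by fun_prop) ?_
  refine NPC.Poly.ite (by fun_prop) ?_ (by fun_prop)
  exact poly_addE.comp (f := fun p : ((List α × List (List α × Bool) × α) × (List α × Bool)) ×
    (List α × Bool) => (p.1.1.1, p.2, p.1.2)) (by fun_prop)

theorem poly_solvable :
    NPC.Poly (fun a : List α × List (List α × Bool) => solvable a.1 a.2) := by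
  unfold solvable
  refine NPC.Poly.all
    (l := fun a : List α × List (List α × Bool) => a.1.foldl (elim a.1) a.2)
    (p := fun _ (e : List α × Bool) => !e.2) ?_ (by fun_prop)
  refine NPC.Poly.foldl (l := fun a : List α × List (List α × Bool) => a.1)
    (s := fun a : List α × List (List α × Bool) => a.2)
    (F := fun (a : List α × List (List α × Bool)) E x => elim a.1 E x)
    (by fun_prop) (by fun_prop) (poly_elim.comp
      (f := fun p : (List α × List (List α × Bool)) × List (List α × Bool) × α =>
        (p.1.1, p.2.1, p.2.2)) (by fun_prop))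
    (Polynomial.X * (Polynomial.X + Polynomial.C 5) + Polynomial.C 1) ?_
  rintro ⟨U, E⟩ k _
  have hp : sz (U, E) = sz U + sz E + 1 := sz_pair U E
  have h1 := foldl_size U (sz (U, E) + 4) (by omega) (U.take k) E (by
    intro e he
    have := sz_le_of_mem he
    omega)
  have h2 := sz_le_length_mul _ _ h1.1
  rw [h1.2] at h2
  have h3 := length_lt_sz E
  have h4 : E.length ≤ sz (U, E) := by omega
  simp only [Polynomial.eval_add, Polynomial.eval_mul, Polynomial.eval_X, Polynomial.eval_C]
  exact h2.trans (Nat.add_le_add_right (Nat.mul_le_mul_right _ h4) 1)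

end Pool.Agent.H210Z.Lin
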