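import Pool.Agent.H210Z.ST.Main
import Pool.Agent.H210Z.ST.Lin
import Pool.Agent.NPC.Dec

/-!
# The recognition algorithm
-/

set_option autoImplicit false

namespace Pool.Agent.H210Z.ST

open Pool.Agent.NPC Pool.Agent.H210Z.Lin

/-- adjacency from the edge list -/
def adjB (es : List (ℕ × ℕ)) (u v : ℕ) : Bool := decide ((u, v) ∈ es) || decide ((v, u) ∈ es)

/-- the test for induced diamonds -/
def diaB (es : List (ℕ × ℕ)) (q : (ℕ × ℕ) × (ℕ × ℕ)) : Bool :=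
  !decide (q.1.1 = q.1.2) && !adjB es q.1.1 q.1.2 && adjB es q.1.1 q.2.1 && adjB es q.1.1 q.2.2 &&
    adjB es q.1.2 q.2.1 && adjB es q.1.2 q.2.2 && adjB es q.2.1 q.2.2

/-- the linear system -/
def eqs (vs : List ℕ) (es : List (ℕ × ℕ)) : List (List (ℕ × ℕ) × Bool) :=
  ((vs ×ˢ vs).filter (fun p => adjB es p.1 p.2)).map (fun p => ([(p.1, p.2), (p.2, p.1)], true)) ++
  (((vs ×ˢ vs) ×ˢ (vs ×ˢ vs)).filter (fun q => diaB es q)).map
    (fun q => ([(q.2.1, q.1.1), (q.1.1, q.2.2), (q.2.1, q.1.2), (q.1.2, q.2.2)], false))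

/-- the algorithm -/
def alg (a : List ℕ × List (ℕ × ℕ)) : Bool := solvable (a.1 ×ˢ a.1) (eqs a.1 a.2)

lemma poly_adjB : NPC.Poly (fun a : List (ℕ × ℕ) × ℕ × ℕ => adjB a.1 a.2.1 a.2.2) := by
  unfold adjB
  fun_prop

lemma poly_adjB' {α : Type} [TEnc α] {e : α → List (ℕ × ℕ)} {u v : α → ℕ} (he : NPC.Poly e)
    (hu : NPC.Poly u) (hv : NPC.Poly v) : NPC.Poly (fun a => adjB (e a) (u a) (v a)) :=
  poly_adjB.comp (f := fun a => (e a, u a, v a)) (NPC.Poly.pair he (NPC.Poly.pair hu hv))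

lemma poly_diaB : NPC.Poly (fun a : List (ℕ × ℕ) × ((ℕ × ℕ) × (ℕ × ℕ)) => diaB a.1 a.2) := by
  unfold diaB
  refine NPC.Poly.and (NPC.Poly.and (NPC.Poly.and (NPC.Poly.and (NPC.Poly.and (NPC.Poly.and
    (by fun_prop) (NPC.Poly.not ?_)) ?_) ?_) ?_) ?_) ?_ <;>
  exact poly_adjB' (by fun_prop) (by fun_prop) (by fun_prop)

lemma poly_eqs : NPC.Poly (fun a : List ℕ × List (ℕ × ℕ) => eqs a.1 a.2) := by
  unfold eqs
  have hU : NPC.Poly (fun a : List ℕ × List (ℕ × ℕ) => a.1 ×ˢ a.1) :=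
    R671.poly_product (by fun_prop) (by fun_prop)
  refine NPC.Poly.append ?_ ?_
  · refine NPC.Poly.map (F := fun _ (p : ℕ × ℕ) => ([(p.1, p.2), (p.2, p.1)], true)) ?_
      (by fun_prop)
    exact NPC.Poly.filter (p := fun (a : List ℕ × List (ℕ × ℕ)) (p : ℕ × ℕ) => adjB a.2 p.1 p.2) hU
      (poly_adjB' (by fun_prop) (by fun_prop) (by fun_prop))
  · refine NPC.Poly.map (F := fun _ (q : (ℕ × ℕ) × (ℕ × ℕ)) =>
      ([(q.2.1, q.1.1), (q.1.1, q.2.2), (q.2.1, q.1.2), (q.1.2, q.2.2)], false)) ?_ (by fun_prop)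
    exact NPC.Poly.filter
      (p := fun (a : List ℕ × List (ℕ × ℕ)) (q : (ℕ × ℕ) × (ℕ × ℕ)) => diaB a.2 q)
      (R671.poly_product hU hU)
      (poly_diaB.comp (f := fun x : (List ℕ × List (ℕ × ℕ)) × ((ℕ × ℕ) × (ℕ × ℕ)) => (x.1.2, x.2))
        (by fun_prop))

lemma poly_alg : NPC.Poly alg :=
  poly_solvable.comp (f := fun a : List ℕ × List (ℕ × ℕ) => (a.1 ×ˢ a.1, eqs a.1 a.2))
    (NPC.Poly.pair (R671.poly_product (by fun_prop) (by fun_prop)) poly_eqs)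

lemma z2_two : ∀ a b : ZMod 2, a + (b + 0) = b2z true ↔ (a = 1 ↔ ¬ b = 1) := by decide

lemma z2_four : ∀ a b c d : ZMod 2, a + (b + (c + (d + 0))) = b2z false ↔
    ((a = 1 ↔ b = 1) ↔ (c = 1 ↔ d = 1)) := by decide

lemma sat_iff {n : ℕ} (G : SimpleGraph (Fin n)) (es : List (ℕ × ℕ))
    (hes : ∀ i j : Fin n, G.Adj i j ↔ ((i : ℕ), (j : ℕ)) ∈ es ∨ ((j : ℕ), (i : ℕ)) ∈ es)
    (z : ℕ × ℕ → ZMod 2) :
    Sat (List.range n ×ˢ List.range n) (eqs (List.range n) es) z ↔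
      (∀ a b : Fin n, G.Adj a b → (z (a, b) = 1 ↔ ¬ z (b, a) = 1)) ∧
        Dia G Finset.univ (fun a b => z (a, b) = 1) := by
  have hadj : ∀ i j : Fin n, adjB es i j = true ↔ G.Adj i j := by
    intro i j
    rw [hes]
    simp [adjB]
  have hmem : ∀ i j : Fin n, ((i : ℕ), (j : ℕ)) ∈ List.range n ×ˢ List.range n := by
    intro i j
    simp
  have hdia : ∀ a b c d : Fin n, diaB es (((a : ℕ), (b : ℕ)), ((c : ℕ), (d : ℕ))) = true ↔
      (a ≠ b ∧ ¬ G.Adj a b ∧ G.Adj a c ∧ G.Adj a d ∧ G.Adj b c ∧ G.Adj b d ∧ G.Adj c d) := by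
    intro a b c d
    simp only [diaB, Bool.and_eq_true, Bool.not_eq_true', ← Bool.not_eq_true, hadj,
      decide_eq_true_eq, Fin.val_inj]
    tauto
  have h1 : ∀ a b : Fin n, G.Adj a b →
      (val (List.range n ×ˢ List.range n) z [((a : ℕ), (b : ℕ)), ((b : ℕ), (a : ℕ))] = b2z true ↔
        (z (a, b) = 1 ↔ ¬ z (b, a) = 1)) := by
    intro a b hab
    have hne : (a : ℕ) ≠ b := fun h => hab.ne (Fin.ext h)
    rw [val_eq_sum _ _ _ (by simp [hne]) (by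
      intro x hx
      simp only [List.mem_cons, List.not_mem_nil, or_false] at hx
      rcases hx with rfl | rfl <;> exact hmem _ _)]
    exact z2_two _ _
  have h2 : ∀ a b c d : Fin n, a ≠ b → G.Adj a c → G.Adj b c →
      (val (List.range n ×ˢ List.range n) z [((c : ℕ), (a : ℕ)), ((a : ℕ), (d : ℕ)),
        ((c : ℕ), (b : ℕ)), ((b : ℕ), (d : ℕ))] = b2z false ↔
        (Bt (fun a b : Fin n => z (a, b) = 1) c a d ↔
          Bt (fun a b : Fin n => z (a, b) = 1) c b d)) := by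
    intro a b c d hab hac hbc
    have e1 : (a : ℕ) ≠ b := fun h => hab (Fin.ext h)
    have e2 : (a : ℕ) ≠ c := fun h => hac.ne (Fin.ext h)
    have e3 : (b : ℕ) ≠ c := fun h => hbc.ne (Fin.ext h)
    rw [val_eq_sum _ _ _ (by simp [e1, e2, e2.symm, e3.symm]) (by
      intro x hx
      simp only [List.mem_cons, List.not_mem_nil, or_false] at hx
      rcases hx with rfl | rfl | rfl | rfl <;> exact hmem _ _)]
    exact z2_four _ _ _ _
  constructor
  · intro h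
    constructor
    · intro a b hab
      refine (h1 a b hab).1 (h ([((a : ℕ), (b : ℕ)), ((b : ℕ), (a : ℕ))], true) ?_)
      refine List.mem_append_left _ (List.mem_map.2 ⟨((a : ℕ), (b : ℕ)), ?_, rfl⟩)
      exact List.mem_filter.2 ⟨hmem a b, (hadj a b).2 hab⟩
    · intro a _ b _ c _ d _ hab hnab hac had hbc hbd hcd
      refine (h2 a b c d hab hac hbc).1 (h ([((c : ℕ), (a : ℕ)), ((a : ℕ), (d : ℕ)),
        ((c : ℕ), (b : ℕ)), ((b : ℕ), (d : ℕ))], false) ?_)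
      refine List.mem_append_right _
        (List.mem_map.2 ⟨(((a : ℕ), (b : ℕ)), ((c : ℕ), (d : ℕ))), ?_, rfl⟩)
      exact List.mem_filter.2 ⟨List.mem_product.2 ⟨hmem a b, hmem c d⟩,
        (hdia a b c d).2 ⟨hab, hnab, hac, had, hbc, hbd, hcd⟩⟩
  · rintro ⟨ha, hb⟩ e he
    rcases List.mem_append.1 he with he | he
    · obtain ⟨⟨a, b⟩, hp, rfl⟩ := List.mem_map.1 he
      rw [List.mem_filter, List.mem_product, List.mem_range, List.mem_range] at hp
      have hab := (hadj ⟨a, hp.1.1⟩ ⟨b, hp.1.2⟩).1 hp.2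
      exact (h1 _ _ hab).2 (ha _ _ hab)
    · obtain ⟨⟨⟨a, b⟩, ⟨c, d⟩⟩, hp, rfl⟩ := List.mem_map.1 he
      rw [List.mem_filter, List.mem_product, List.mem_product, List.mem_product, List.mem_range,
        List.mem_range, List.mem_range, List.mem_range] at hp
      obtain ⟨hab, hnab, hac, had, hbc, hbd, hcd⟩ :=
        (hdia ⟨a, hp.1.1.1⟩ ⟨b, hp.1.1.2⟩ ⟨c, hp.1.2.1⟩ ⟨d, hp.1.2.2⟩).1 hp.2
      exact (h2 _ _ _ ⟨d, hp.1.2.2⟩ hab hac hbc).2
        (hb _ (by simp) _ (by simp) _ (by simp) _ (by simp) hab hnab hac had hbc hbd hcd)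

lemma alg_iff {n : ℕ} (G : SimpleGraph (Fin n)) (es : List (ℕ × ℕ))
    (hes : ∀ i j : Fin n, G.Adj i j ↔ ((i : ℕ), (j : ℕ)) ∈ es ∨ ((j : ℕ), (i : ℕ)) ∈ es)
    (hG : IsChordal G) : alg (List.range n, es) = true ↔ IsSemiTransitive G := by
  classical
  unfold alg
  rw [solvable_iff, semiTransitive_iff hG]
  constructor
  · rintro ⟨z, hz⟩
    exact ⟨_, (sat_iff G es hes z).1 hz⟩
  · rintro ⟨y, hy⟩
    let z : ℕ × ℕ → ZMod 2 := fun p =>
      if h : p.1 < n ∧ p.2 < n then (if y ⟨p.1, h.1⟩ ⟨p.2, h.2⟩ then 1 else 0) else 0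
    have hz : (fun a b : Fin n => z (a, b) = 1) = y := by
      funext a b
      by_cases h : y a b <;> simp [z, h]
    refine ⟨z, (sat_iff G es hes z).2 ?_⟩
    rw [← hz] at hy
    exact hy

theorem main : ∃ A : List Bool → List Bool, PolyTime A ∧
    ∀ (n : ℕ) (G : SimpleGraph (Fin n)) (es : List (ℕ × ℕ)),
      (∀ i j : Fin n, G.Adj i j ↔ ((i : ℕ), (j : ℕ)) ∈ es ∨ ((j : ℕ), (i : ℕ)) ∈ es) →
      IsChordal G →
      (IsSemiTransitive G → A (bits (List.range n, es)) = [true]) ∧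
      (¬ IsSemiTransitive G → A (bits (List.range n, es)) = [false]) := by
  refine ⟨fun x => [(unbits (List ℕ × List (ℕ × ℕ)) x).any alg], polyTime_of_poly
    (NPC.Poly.optAny_fp (h := fun _ a => alg a) poly_unbits
      (poly_alg.comp (NPC.Poly.snd NPC.Poly.id))), ?_⟩
  intro n G es hes hG
  have := alg_iff G es hes hG
  simp only [unbits_bits, Option.any_some]
  constructor
  · intro h
    rw [this.2 h]
  · intro h
    rw [← this, Bool.not_eq_true] at h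
    rw [h]

end Pool.Agent.H210Z.ST
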