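import Mathlib

/-!
# Chordal graphs and semi-transitive orientations
-/

set_option autoImplicit false

namespace Pool.Agent.H210Z.ST

/-- A graph is chordal if every cycle on at least four vertices has a chord (an edge of the graph
joining two vertices of the cycle which is not an edge of the cycle). -/
def IsChordal {V : Type} (G : SimpleGraph V) : Prop :=
  ∀ (v : V) (c : G.Walk v v), c.IsCycle → 4 ≤ c.length → ∃ e, c.IsChord e

/-- `D` (with `D u v` meaning that there is an arc from `u` to `v`) is a semi-transitive
orientation of `G`: arcs are edges, every edge gets exactly one direction, there is no directed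
cycle, and whenever `p 0 → p 1 → ... → p k` (`k ≥ 3`) is a directed path and `p 0 → p k` is an
arc, all arcs `p i → p j` with `i < j` are present. -/
structure IsSemiTransitiveOrientation {V : Type} (G : SimpleGraph V) (D : V → V → Prop) :
    Prop where
  adj_of_arc : ∀ u v, D u v → G.Adj u v
  arc_of_adj : ∀ u v, G.Adj u v → D u v ∨ D v u
  not_both : ∀ u v, D u v → ¬ D v u
  acyclic : ∀ v, ¬ Relation.TransGen D v v
  no_shortcut : ∀ (k : ℕ) (p : ℕ → V), 3 ≤ k → (∀ i < k, D (p i) (p (i + 1))) → D (p 0) (p k) →
    ∀ i j, i < j → j ≤ k → D (p i) (p j)

/-- A graph is semi-transitive if it admits a semi-transitive orientation. -/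
def IsSemiTransitive {V : Type} (G : SimpleGraph V) : Prop :=
  ∃ D : V → V → Prop, IsSemiTransitiveOrientation G D

end Pool.Agent.H210Z.ST
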