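import Mathlib

/-!
# Modules of tournaments and insertion of a vertex in a cyclic order
-/

set_option autoImplicit false

namespace Pool.Agent.H210Z.ST

open Classical

variable {V : Type}

/-- modules of a tournament on `K` -/
def TM (K : Finset V) (t : V → V → Prop) (A : Finset V) : Prop :=
  A ⊆ K ∧ ∀ a ∈ A, ∀ a' ∈ A, ∀ c ∈ K, c ∉ A → (t a c ↔ t a' c)

lemma TM.union {K : Finset V} {t : V → V → Prop} {A B : Finset V} (hA : TM K t A) (hB : TM K t B)
    {m : V} (hmA : m ∈ A) (hmB : m ∈ B) : TM K t (A ∪ B) := by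
  refine ⟨Finset.union_subset hA.1 hB.1, ?_⟩
  intro a ha a' ha' c hc hcn
  rw [Finset.mem_union, not_or] at hcn
  have key : ∀ x ∈ A ∪ B, (t x c ↔ t m c) := by
    intro x hx
    rcases Finset.mem_union.1 hx with h | h
    · exact hA.2 x h m hmA c hc hcn.1
    · exact hB.2 x h m hmB c hc hcn.2
  exact (key a ha).trans (key a' ha').symm

lemma TM.inter {K : Finset V} {t : V → V → Prop} {A B : Finset V} (hA : TM K t A)
    (hB : TM K t B) : TM K t (A ∩ B) := by
  refine ⟨Finset.inter_subset_left.trans hA.1, ?_⟩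
  intro a ha a' ha' c hc hcn
  rw [Finset.mem_inter] at ha ha' hcn
  by_cases h : c ∈ A
  · exact hB.2 a ha.2 a' ha'.2 c hc (fun h' => hcn ⟨h, h'⟩)
  · exact hA.2 a ha.1 a' ha'.1 c hc h

/-- structure of the proper modules of a tournament -/
lemma module_structure (K : Finset V) (t : V → V → Prop)
    (anti : ∀ a ∈ K, ∀ b ∈ K, a ≠ b → (t a b ↔ ¬ t b a)) (hK : 2 ≤ K.card) :
    ∃ E C : Finset V, E.Nonempty ∧ C.Nonempty ∧ E ⊆ K ∧ C ⊆ K ∧ Disjoint E C ∧
      TM K t (K \ (E ∪ C)) ∧ ∀ A, TM K t A → A ≠ K → Disjoint A E ∨ Disjoint A C := by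
  obtain ⟨x, hx⟩ : K.Nonempty := Finset.card_pos.1 (by omega)
  have hxm : TM K t {x} := by
    refine ⟨by simpa using hx, ?_⟩
    intro a ha a' ha' c _ _
    rw [Finset.mem_singleton] at ha ha'
    rw [ha, ha']
  have hxK : ({x} : Finset V) ≠ K := by
    intro h
    rw [← h] at hK
    simp at hK
  obtain ⟨A, hA, hAmax⟩ := Finset.exists_max_image
    (K.powerset.filter (fun A => TM K t A ∧ A ≠ K)) Finset.card
    ⟨{x}, by simp only [Finset.mem_filter, Finset.mem_powerset]; exact ⟨hxm.1, hxm, hxK⟩⟩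
  simp only [Finset.mem_filter, Finset.mem_powerset] at hA hAmax
  obtain ⟨_, hAm, hAK⟩ := hA
  have hAne : A.Nonempty := by
    have := hAmax {x} ⟨hxm.1, hxm, hxK⟩
    rw [Finset.card_singleton] at this
    exact Finset.card_pos.1 (by omega)
  have hAbig : ∀ B, TM K t B → A ⊆ B → (∃ z ∈ B, z ∉ A) → B = K := by
    rintro B hB hAB ⟨z, hz, hzA⟩
    by_contra hne
    have h1 := hAmax B ⟨hB.1, hB, hne⟩
    have h2 : A.card < B.card := Finset.card_lt_card ⟨hAB, fun h => hzA (h hz)⟩
    omega
  have hCne : (K \ A).Nonempty := by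
    rw [Finset.sdiff_nonempty]
    intro h
    exact hAK (Finset.Subset.antisymm hAm.1 h)
  by_cases hcase : ∀ B, TM K t B → B ≠ K → Disjoint B A ∨ B ⊆ A
  · refine ⟨A, K \ A, hAne, hCne, hAm.1, Finset.sdiff_subset, Finset.disjoint_sdiff, ?_, ?_⟩
    · have : K \ (A ∪ K \ A) = ∅ := by
        rw [Finset.union_sdiff_self_eq_union, Finset.sdiff_eq_empty_iff_subset]
        exact Finset.subset_union_right
      rw [this]
      exact ⟨by simp, by simp⟩
    · intro B hB hBK
      rcases hcase B hB hBK with h | h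
      · exact Or.inl h
      · exact Or.inr (Finset.disjoint_of_subset_left h Finset.disjoint_sdiff)
  · push Not at hcase
    obtain ⟨B0, hB0, hB0K, hB0d, hB0s⟩ := hcase
    obtain ⟨B, hB, hBmax⟩ := Finset.exists_max_image
      (K.powerset.filter (fun B => TM K t B ∧ B ≠ K ∧ ¬ Disjoint B A ∧ ¬ B ⊆ A)) Finset.card
      ⟨B0, by
        simp only [Finset.mem_filter, Finset.mem_powerset]
        exact ⟨hB0.1, hB0, hB0K, hB0d, hB0s⟩⟩
    simp only [Finset.mem_filter, Finset.mem_powerset] at hB hBmax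
    obtain ⟨_, hBm, hBK, hBd, hBs⟩ := hB
    obtain ⟨m, hmB, hmA⟩ := Finset.not_disjoint_iff.1 hBd
    obtain ⟨z, hzB, hzA⟩ := Finset.not_subset.1 hBs
    have hAB : A ∪ B = K := hAbig _ (hAm.union hBm hmA hmB) Finset.subset_union_left
      ⟨z, Finset.mem_union_right _ hzB, hzA⟩
    have hor : ∀ u ∈ K, u ∈ A ∨ u ∈ B := by
      intro u hu
      rw [← hAB] at hu
      exact Finset.mem_union.1 hu
    have hEne : (K \ B).Nonempty := by
      rw [Finset.sdiff_nonempty]
      intro h
      exact hBK (Finset.Subset.antisymm hBm.1 h)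
    refine ⟨K \ B, K \ A, hEne, hCne, Finset.sdiff_subset, Finset.sdiff_subset, ?_, ?_, ?_⟩
    · rw [Finset.disjoint_left]
      intro u hu hu'
      rw [Finset.mem_sdiff] at hu hu'
      rcases hor u hu.1 with h | h
      · exact hu'.2 h
      · exact hu.2 h
    · have : K \ (K \ B ∪ K \ A) = A ∩ B := by
        ext u
        simp only [Finset.mem_sdiff, Finset.mem_union, Finset.mem_inter]
        constructor
        · rintro ⟨h1, h2⟩
          push Not at h2
          exact ⟨h2.2 h1, h2.1 h1⟩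
        · rintro ⟨h1, h2⟩
          exact ⟨hAm.1 h1, by tauto⟩
      rw [this]
      exact hAm.inter hBm
    · intro A' hA' hA'K
      by_contra hcon
      rw [not_or] at hcon
      obtain ⟨e, heA', he⟩ := Finset.not_disjoint_iff.1 hcon.1
      obtain ⟨c, hcA', hc⟩ := Finset.not_disjoint_iff.1 hcon.2
      rw [Finset.mem_sdiff] at he hc
      have heA : e ∈ A := (hor e he.1).resolve_right he.2
      have hcB : c ∈ B := (hor c hc.1).resolve_left hc.2
      have hN : ∀ n ∈ A, n ∈ B → n ∈ A' := by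
        intro n hnA hnB
        by_contra hn
        have hnK := hAm.1 hnA
        have h1 := hA'.2 e heA' c hcA' n hnK hn
        have h2 := hBm.2 n hnB c hcB e he.1 he.2
        have h3 := hAm.2 n hnA e heA c hc.1 hc.2
        have hne : n ≠ e := fun h => he.2 (h ▸ hnB)
        have hnc : n ≠ c := fun h => hc.2 (h ▸ hnA)
        have hec : e ≠ c := fun h => he.2 (h ▸ hcB)
        have h4 := anti n hnK e he.1 hne
        have h5 := anti n hnK c hc.1 hnc
        have h6 := anti e he.1 c hc.1 hec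
        tauto
      have hmA' := hN m hmA hmB
      have h1 : A ∪ A' = K := hAbig _ (hAm.union hA' hmA hmA') Finset.subset_union_left
        ⟨c, Finset.mem_union_right _ hcA', hc.2⟩
      have h2 : B ∪ A' = K := by
        by_contra hne
        have hm2 := hBm.union hA' hmB hmA'
        have h3 := hBmax (B ∪ A') ⟨hm2.1, hm2, hne,
          Finset.not_disjoint_iff.2 ⟨m, Finset.mem_union_left _ hmB, hmA⟩,
          fun h => hzA (h (Finset.mem_union_left _ hzB))⟩
        have h4 : B.card < (B ∪ A').card := Finset.card_lt_card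
          ⟨Finset.subset_union_left, fun h => he.2 (h (Finset.mem_union_right _ heA'))⟩
        omega
      apply hA'K
      refine Finset.Subset.antisymm hA'.1 ?_
      intro u hu
      by_contra huA'
      have h3 : u ∈ A := by
        have : u ∈ A ∪ A' := h1.symm ▸ hu
        exact (Finset.mem_union.1 this).resolve_right huA'
      have h4 : u ∈ B := by
        have : u ∈ B ∪ A' := h2.symm ▸ hu
        exact (Finset.mem_union.1 this).resolve_right huA'
      exact huA' (hN u h3 h4)

/-- the point `q` is cyclically adjacent to `x` -/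
def Nb (K : Finset V) (r : V → ℚ) (x : V) (q : ℚ) : Prop :=
  ∀ a ∈ K, ∀ a' ∈ K, a ≠ x → a' ≠ x → ((r a < q ↔ q < r a') ↔ (r a < r x ↔ r x < r a'))

/-- strict betweenness -/
def Btw (r : V → ℚ) (a x b : V) : Prop := (r a < r x ∧ r x < r b) ∨ (r b < r x ∧ r x < r a)

lemma geometry (K : Finset V) (r : V → ℚ) (hr : ∀ a ∈ K, ∀ b ∈ K, a ≠ b → r a ≠ r b)
    (E C : Finset V) (hE : E.Nonempty) (hC : C.Nonempty) (hEK : E ⊆ K) (hCK : C ⊆ K)
    (hd : Disjoint E C)
    (harc : ∀ e ∈ E, ∀ c ∈ C, ∀ n ∈ K \ (E ∪ C), ∀ n' ∈ K \ (E ∪ C), Btw r e n c → Btw r e n' c) :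
    ∃ q : ℚ, (∀ x ∈ K, r x ≠ q) ∧ ∃ e ∈ E, ∃ c ∈ C, Nb K r e q ∧ Nb K r c q := by
  have hne : ∀ e ∈ E, ∀ c ∈ C, r e ≠ r c := fun e he c hc =>
    hr e (hEK he) c (hCK hc) (fun h => Finset.disjoint_left.1 hd he (h ▸ hc))
  by_cases hcase : ∃ p ∈ E ×ˢ C, ∀ n ∈ K \ (E ∪ C), ¬ Btw r p.1 n p.2
  · obtain ⟨p, hp, hpmin⟩ := Finset.exists_min_image
      ((E ×ˢ C).filter (fun p => ∀ n ∈ K \ (E ∪ C), ¬ Btw r p.1 n p.2))
      (fun p => |r p.1 - r p.2|) (by
        obtain ⟨p, hp, hp'⟩ := hcase
        exact ⟨p, Finset.mem_filter.2 ⟨hp, hp'⟩⟩)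
    obtain ⟨e, c⟩ := p
    simp only [Finset.mem_filter, Finset.mem_product] at hp hpmin
    obtain ⟨⟨he, hc⟩, hno⟩ := hp
    have hno' : ∀ x ∈ K, ¬ Btw r e x c := by
      intro x hx hb
      by_cases hxE : x ∈ E
      · have h1 := hpmin (x, c) ⟨⟨hxE, hc⟩, by
          intro n hn hb'
          apply hno n hn
          simp only [Btw] at hb hb' ⊢
          rcases hb with hb | hb <;> rcases hb' with hb' | hb'
          · left; constructor <;> linarith [hb.1, hb.2, hb'.1, hb'.2]
          · exfalso; linarith [hb.1, hb.2, hb'.1, hb'.2]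
          · exfalso; linarith [hb.1, hb.2, hb'.1, hb'.2]
          · right; constructor <;> linarith [hb.1, hb.2, hb'.1, hb'.2]⟩
        simp only [Btw] at hb h1
        rcases hb with hb | hb
        · rw [abs_of_neg (by linarith [hb.1, hb.2]), abs_of_neg (by linarith [hb.1, hb.2])] at h1
          linarith [hb.1, hb.2]
        · rw [abs_of_pos (by linarith [hb.1, hb.2]), abs_of_pos (by linarith [hb.1, hb.2])] at h1
          linarith [hb.1, hb.2]
      · by_cases hxC : x ∈ C
        · have h1 := hpmin (e, x) ⟨⟨he, hxC⟩, by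
            intro n hn hb'
            apply hno n hn
            simp only [Btw] at hb hb' ⊢
            rcases hb with hb | hb <;> rcases hb' with hb' | hb'
            · left; constructor <;> linarith [hb.1, hb.2, hb'.1, hb'.2]
            · exfalso; linarith [hb.1, hb.2, hb'.1, hb'.2]
            · exfalso; linarith [hb.1, hb.2, hb'.1, hb'.2]
            · right; constructor <;> linarith [hb.1, hb.2, hb'.1, hb'.2]⟩
          simp only [Btw] at hb h1
          rcases hb with hb | hb
          · rw [abs_of_neg (by linarith [hb.1, hb.2]), abs_of_neg (by linarith [hb.1, hb.2])] at h1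
            linarith [hb.1, hb.2]
          · rw [abs_of_pos (by linarith [hb.1, hb.2]), abs_of_pos (by linarith [hb.1, hb.2])] at h1
            linarith [hb.1, hb.2]
        · exact hno x (by simp [hx, hxE, hxC]) hb
    have hec := hne e he c hc
    -- every vertex of `K` lies outside the open interval
    have hout : ∀ x ∈ K, (r x ≤ r e ∧ r x ≤ r c) ∨ (r e ≤ r x ∧ r c ≤ r x) := by
      intro x hx
      have := hno' x hx
      simp only [Btw, not_or, not_and, not_lt] at this
      rcases lt_trichotomy (r x) (r e) with h | h | h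
      · left
        refine ⟨h.le, ?_⟩
        by_contra h'
        have := this.2 (not_le.1 h')
        linarith
      · rcases le_total (r x) (r c) with h' | h'
        · exact Or.inl ⟨h.le, h'⟩
        · exact Or.inr ⟨h.ge, h'⟩
      · exact Or.inr ⟨h.le, this.1 h⟩
    have hq : ∀ x ∈ K, r x ≠ (r e + r c) / 2 := by
      intro x hx h
      apply hec
      rcases hout x hx with h' | h' <;> linarith [h'.1, h'.2]
    have hcmp : ∀ w, (w = e ∨ w = c) → ∀ x ∈ K, x ≠ w →
        (r x < (r e + r c) / 2 ↔ r x < r w) ∧ ((r e + r c) / 2 < r x ↔ r w < r x) := by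
      intro w hw x hx hxw
      have hwK : w ∈ K := by
        rcases hw with rfl | rfl
        · exact hEK he
        · exact hCK hc
      have h1 := hr x hx w hwK hxw
      have h2 := hq x hx
      have h3 : (r x < (r e + r c) / 2 ↔ r x < r w) := by
        rcases hout x hx with h' | h'
        · have : r x ≤ r w := by rcases hw with rfl | rfl <;> [exact h'.1; exact h'.2]
          exact ⟨fun _ => lt_of_le_of_ne this h1,
            fun _ => lt_of_le_of_ne (by linarith [h'.1, h'.2]) h2⟩
        · have : r w ≤ r x := by rcases hw with rfl | rfl <;> [exact h'.1; exact h'.2]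
          exact ⟨fun h => by linarith [h'.1, h'.2], fun h => by linarith⟩
      refine ⟨h3, ?_⟩
      constructor
      · intro h
        by_contra h'
        have := h3.2 (lt_of_le_of_ne (not_lt.1 h') h1)
        linarith
      · intro h
        by_contra h'
        have := h3.1 (lt_of_le_of_ne (not_lt.1 h') h2)
        linarith
    refine ⟨(r e + r c) / 2, hq, e, he, c, hc, ?_, ?_⟩
    · intro a ha a' ha' h1 h2
      rw [(hcmp e (Or.inl rfl) a ha h1).1, (hcmp e (Or.inl rfl) a' ha' h2).2]
    · intro a ha a' ha' h1 h2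
      rw [(hcmp c (Or.inr rfl) a ha h1).1, (hcmp c (Or.inr rfl) a' ha' h2).2]
  · push Not at hcase
    have hall : ∀ e ∈ E, ∀ c ∈ C, ∀ n ∈ K \ (E ∪ C), Btw r e n c := by
      intro e he c hc n hn
      obtain ⟨n0, hn0, hb⟩ := hcase (e, c) (Finset.mem_product.2 ⟨he, hc⟩)
      exact harc e he c hc n0 hn0 n hn hb
    obtain ⟨e, he⟩ := hE
    obtain ⟨c, hc⟩ := hC
    obtain ⟨n, hn, -⟩ := hcase (e, c) (Finset.mem_product.2 ⟨he, hc⟩)
    have hKne : K.Nonempty := ⟨e, hEK he⟩
    obtain ⟨m, hm, hmmin⟩ := Finset.exists_min_image K r hKne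
    obtain ⟨M, hM, hMmax⟩ := Finset.exists_max_image K r hKne
    have hmN : m ∈ E ∨ m ∈ C := by
      by_contra h
      have := hall e he c hc m (by rw [Finset.mem_sdiff, Finset.mem_union]; exact ⟨hm, h⟩)
      have h1 := hmmin e (hEK he)
      have h2 := hmmin c (hCK hc)
      rcases this with h | h <;> linarith [h.1, h.2]
    have hMN : M ∈ E ∨ M ∈ C := by
      by_contra h
      have := hall e he c hc M (by rw [Finset.mem_sdiff, Finset.mem_union]; exact ⟨hM, h⟩)
      have h1 := hMmax e (hEK he)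
      have h2 := hMmax c (hCK hc)
      rcases this with h | h <;> linarith [h.1, h.2]
    have hq : ∀ x ∈ K, r x ≠ r M + 1 := by
      intro x hx h
      have := hMmax x hx
      linarith
    have hNbM : Nb K r M (r M + 1) := by
      intro a ha a' ha' h1 h2
      have h3 := lt_of_le_of_ne (hMmax a ha) (hr a ha M hM h1)
      have h4 := hMmax a' ha'
      constructor
      · intro h
        have := h.1 (by linarith)
        linarith
      · intro h
        have := h.1 h3
        linarith
    have hNbm : Nb K r m (r M + 1) := by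
      intro a ha a' ha' h1 h2
      have h3 := lt_of_le_of_ne (hmmin a' ha') (hr m hm a' ha' (Ne.symm h2))
      have h4 := hMmax a' ha'
      have h5 := hMmax a ha
      have h6 := hmmin a ha
      constructor
      · intro h
        have := h.1 (by linarith)
        linarith
      · intro h
        have := h.2 h3
        linarith
    rcases hmN with h1 | h1 <;> rcases hMN with h2 | h2
    · exfalso
      have a1 := hall m h1 c hc n hn
      have a2 := hall M h2 c hc n hn
      have a3 := hmmin c (hCK hc)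
      have a4 := hMmax c (hCK hc)
      rcases a1 with a1 | a1 <;> rcases a2 with a2 | a2 <;> linarith [a1.1, a1.2, a2.1, a2.2]
    · exact ⟨r M + 1, hq, m, h1, M, h2, hNbm, hNbM⟩
    · exact ⟨r M + 1, hq, M, h2, m, h1, hNbM, hNbm⟩
    · exfalso
      have a1 := hall e he m h1 n hn
      have a2 := hall e he M h2 n hn
      have a3 := hmmin e (hEK he)
      have a4 := hMmax e (hEK he)
      rcases a1 with a1 | a1 <;> rcases a2 with a2 | a2 <;> linarith [a1.1, a1.2, a2.1, a2.2]

/-- `c` is between `a` and `a'` in the sense of the orientation `y` -/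
def Bt (y : V → V → Prop) (a c a' : V) : Prop := (y a c ↔ y c a')

/-- modules of the switching class of `y` on `Q` -/
def IsMod (y : V → V → Prop) (Q A : Finset V) : Prop :=
  A ⊆ Q ∧ ∀ a ∈ A, ∀ a' ∈ A, ∀ c ∈ Q, c ∉ A → ∀ d ∈ Q, d ∉ A → (Bt y a c a' ↔ Bt y a d a')

/-- the orientation given by a rank function -/
def ltr (r : V → ℚ) (u v : V) : Prop := r u < r v

lemma IsMod.compl {y : V → V → Prop} {Q A : Finset V}
    (anti : ∀ a ∈ Q, ∀ b ∈ Q, a ≠ b → (y a b ↔ ¬ y b a)) (h : IsMod y Q A) :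
    IsMod y Q (Q \ A) := by
  refine ⟨Finset.sdiff_subset, ?_⟩
  intro c hc d hd a ha ha2 a' ha' ha2'
  rw [Finset.mem_sdiff] at hc hd ha2 ha2'
  have haA : a ∈ A := by tauto
  have haA' : a' ∈ A := by tauto
  have h1 := h.2 a haA a' haA' c hc.1 hc.2 d hd.1 hd.2
  have h2 := anti a ha c hc.1 (fun e => hc.2 (e ▸ haA))
  have h3 := anti a ha d hd.1 (fun e => hd.2 (e ▸ haA))
  have h4 := anti a' ha' c hc.1 (fun e => hc.2 (e ▸ haA'))
  have h5 := anti a' ha' d hd.1 (fun e => hd.2 (e ▸ haA'))
  unfold Bt at h1 ⊢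
  tauto

lemma ltr_anti {r : V → ℚ} {a b : V} (h : r a ≠ r b) : (ltr r a b ↔ ¬ ltr r b a) := by
  unfold ltr
  exact ⟨fun h1 => not_lt.2 h1.le, fun h1 => lt_of_le_of_ne (not_lt.1 h1) h⟩

/-- insertion of a new vertex -/
lemma insertion (K : Finset V) (v : V) (hv : v ∉ K) (y : V → V → Prop)
    (anti : ∀ a ∈ insert v K, ∀ b ∈ insert v K, a ≠ b → (y a b ↔ ¬ y b a))
    (r : V → ℚ) (hr : ∀ a ∈ K, ∀ b ∈ K, a ≠ b → r a ≠ r b)
    (hM : ∀ A, IsMod y K A → IsMod (ltr r) K A) :
    ∃ q : ℚ, (∀ x ∈ K, r x ≠ q) ∧ ∀ A, A ⊆ K → IsMod y (insert v K) A →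
      ∀ a ∈ A, ∀ a' ∈ A, ∀ c ∈ K, c ∉ A → ((r a < q ↔ q < r a') ↔ Bt (ltr r) a c a') := by
  have hvI : v ∈ insert v K := Finset.mem_insert_self _ _
  have hI : ∀ a ∈ K, a ∈ insert v K := fun a ha => Finset.mem_insert_of_mem ha
  have hav : ∀ a ∈ K, (y a v ↔ ¬ y v a) := fun a ha =>
    anti a (hI a ha) v hvI (fun e => hv (e ▸ ha))
  by_cases hK : 2 ≤ K.card
  · let t : V → V → Prop := fun a c => ((y a c ↔ y a v) ↔ y c v)
    have tanti : ∀ a ∈ K, ∀ b ∈ K, a ≠ b → (t a b ↔ ¬ t b a) := by
      intro a ha b hb hab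
      have := anti a (hI a ha) b (hI b hb) hab
      simp only [t]
      tauto
    have h1 : ∀ A, A ⊆ K → IsMod y (insert v K) A → TM K t A := by
      intro A hAK hA
      refine ⟨hAK, ?_⟩
      intro a ha a' ha' c hc hcA
      have e1 := hA.2 a ha a' ha' c (hI c hc) hcA v hvI (fun h => hv (hAK h))
      have e2 := hav a' (hAK ha')
      have e3 := anti a' (hI a' (hAK ha')) c (hI c hc) (fun e => hcA (e ▸ ha'))
      simp only [t]
      unfold Bt at e1
      tauto
    have h2 : ∀ A, TM K t A → IsMod y K A := by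
      intro A hA
      refine ⟨hA.1, ?_⟩
      have key : ∀ a ∈ A, ∀ a' ∈ A, ∀ c ∈ K, c ∉ A → (Bt y a c a' ↔ Bt y a v a') := by
        intro a ha a' ha' c hc hcA
        have e1 := hA.2 a ha a' ha' c hc hcA
        have e2 := hav a' (hA.1 ha')
        have e3 := anti a' (hI a' (hA.1 ha')) c (hI c hc) (fun e => hcA (e ▸ ha'))
        simp only [t] at e1
        unfold Bt
        tauto
      intro a ha a' ha' c hc hcA d hd hdA
      exact (key a ha a' ha' c hc hcA).trans (key a ha a' ha' d hd hdA).symm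
    obtain ⟨E, C, hE, hC, hEK, hCK, hd, hN, hall⟩ := module_structure K t tanti hK
    have ranti : ∀ a ∈ K, ∀ b ∈ K, a ≠ b → (ltr r a b ↔ ¬ ltr r b a) :=
      fun a ha b hb hab => ltr_anti (hr a ha b hb hab)
    have hN' := (hM _ (h2 _ hN)).compl ranti
    obtain ⟨q, hq, e, he, c0, hc0, hNe, hNc⟩ := geometry K r hr E C hE hC hEK hCK hd (by
      intro e he c hc n hn n' hn' hb
      have m1 : e ∈ K \ (K \ (E ∪ C)) := by simp [hEK he, he]
      have m2 : c ∈ K \ (K \ (E ∪ C)) := by simp [hCK hc, hc]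
      have hnK := (Finset.mem_sdiff.1 hn).1
      have hnK' := (Finset.mem_sdiff.1 hn').1
      have e1 := hN'.2 e m1 c m2 n hnK (fun h => (Finset.mem_sdiff.1 h).2 hn) n' hnK'
        (fun h => (Finset.mem_sdiff.1 h).2 hn')
      have e2 : r n' ≠ r e := hr n' hnK' e (hEK he) (fun h => (Finset.mem_sdiff.1 hn').2
        (h ▸ Finset.mem_union_left _ he))
      have e3 : r n' ≠ r c := hr n' hnK' c (hCK hc) (fun h => (Finset.mem_sdiff.1 hn').2
        (h ▸ Finset.mem_union_right _ hc))
      unfold Bt ltr at e1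
      unfold Btw at hb ⊢
      have e4 : (r e < r n ↔ r n < r c) := by
        rcases hb with hb | hb
        · exact ⟨fun _ => hb.2, fun _ => hb.1⟩
        · exact ⟨fun h => by linarith [hb.2], fun h => by linarith [hb.1]⟩
      have e5 := e1.1 e4
      by_cases h : r e < r n'
      · exact Or.inl ⟨h, e5.1 h⟩
      · right
        have h' : ¬ r n' < r c := fun h' => h (e5.2 h')
        exact ⟨lt_of_le_of_ne (not_lt.1 h') e3.symm, lt_of_le_of_ne (not_lt.1 h) e2⟩)
    refine ⟨q, hq, ?_⟩
    intro A hAK hA a ha a' ha' c hc hcA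
    have hAt := h1 A hAK hA
    have hAr := hM A (h2 A hAt)
    have hAne : A ≠ K := fun h => hcA (h ▸ hc)
    have fin : ∀ w ∈ K, w ∉ A → Nb K r w q → ((r a < q ↔ q < r a') ↔ Bt (ltr r) a c a') := by
      intro w hw hwA hNb
      have e1 := hNb a (hAK ha) a' (hAK ha') (fun e => hwA (e ▸ ha)) (fun e => hwA (e ▸ ha'))
      exact e1.trans (hAr.2 a ha a' ha' w hw hwA c hc hcA)
    rcases hall A hAt hAne with h | h
    · exact fin e (hEK he) (fun h' => Finset.disjoint_left.1 h h' he) hNe
    · exact fin c0 (hCK hc0) (fun h' => Finset.disjoint_left.1 h h' hc0) hNc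
  · obtain ⟨q, hq⟩ := Infinite.exists_notMem_finset (K.image r)
    refine ⟨q, fun x hx h => hq (Finset.mem_image.2 ⟨x, hx, h⟩), ?_⟩
    intro A hAK _ a ha a' _ c hc hcA
    exfalso
    apply hK
    have : ({a, c} : Finset V) ⊆ K := by
      intro x hx
      rcases Finset.mem_insert.1 hx with rfl | hx
      · exact hAK ha
      · rw [Finset.mem_singleton.1 hx]; exact hc
    have h2 := Finset.card_le_card this
    have hac : a ≠ c := fun e => hcA (e ▸ ha)
    rwa [Finset.card_pair hac] at h2

end Pool.Agent.H210Z.ST
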