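import Pool.Agent.H210Z.ST.Simp
import Pool.Agent.H210Z.ST.Mod

/-!
# A chordal graph is semi-transitive iff the diamond parity system is solvable
-/

set_option autoImplicit false

namespace Pool.Agent.H210Z.ST

open Classical

variable {V : Type} {G : SimpleGraph V}

/-- the parity condition on induced diamonds inside `s` -/
def Dia (G : SimpleGraph V) (s : Finset V) (y : V → V → Prop) : Prop :=
  ∀ a ∈ s, ∀ b ∈ s, ∀ c ∈ s, ∀ d ∈ s, a ≠ b → ¬ G.Adj a b → G.Adj a c → G.Adj a d → G.Adj b c →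
    G.Adj b d → G.Adj c d → (Bt y c a d ↔ Bt y c b d)

/-- maximal cliques inside `s` -/
def MaxClq (G : SimpleGraph V) (s Q : Finset V) : Prop :=
  Q ⊆ s ∧ (∀ a ∈ Q, ∀ b ∈ Q, a ≠ b → G.Adj a b) ∧ ∀ x ∈ s, x ∉ Q → ∃ a ∈ Q, ¬ G.Adj x a

lemma exists_maxClq (s K : Finset V) (hK : K ⊆ s) (hc : ∀ a ∈ K, ∀ b ∈ K, a ≠ b → G.Adj a b) :
    ∃ Q, K ⊆ Q ∧ MaxClq G s Q := by
  obtain ⟨Q, hQ, hmax⟩ := Finset.exists_max_image
    (s.powerset.filter (fun Q => K ⊆ Q ∧ ∀ a ∈ Q, ∀ b ∈ Q, a ≠ b → G.Adj a b)) Finset.card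
    ⟨K, by simp only [Finset.mem_filter, Finset.mem_powerset]; exact ⟨hK, subset_rfl, hc⟩⟩
  simp only [Finset.mem_filter, Finset.mem_powerset] at hQ hmax
  refine ⟨Q, hQ.2.1, hQ.1, hQ.2.2, ?_⟩
  intro x hx hxQ
  by_contra hcon
  push Not at hcon
  have h1 := hmax (insert x Q) ⟨Finset.insert_subset hx hQ.1,
    hQ.2.1.trans (Finset.subset_insert _ _), by
      intro a ha b hb hab
      rcases Finset.mem_insert.1 ha with rfl | ha' <;> rcases Finset.mem_insert.1 hb with rfl | hb'
      · exact absurd rfl hab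
      · exact hcon b hb'
      · exact (hcon a ha').symm
      · exact hQ.2.2 a ha' b hb' hab⟩
  rw [Finset.card_insert_of_notMem hxQ] at h1
  omega

lemma bt_self {y : V → V → Prop} {c x : V} (h : y c x ↔ ¬ y x c) : ¬ Bt y c x c := by
  unfold Bt; tauto

/-- the diamond condition, also for `c = d` -/
lemma Dia.weak {s : Finset V} {y : V → V → Prop} (h : Dia G s y)
    (anti : ∀ a ∈ s, ∀ b ∈ s, G.Adj a b → (y a b ↔ ¬ y b a))
    {a b c d : V} (ha : a ∈ s) (hb : b ∈ s) (hc : c ∈ s) (hd : d ∈ s) (hnab : ¬ G.Adj a b)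
    (hac : G.Adj a c) (had : G.Adj a d) (hbc : G.Adj b c) (hbd : G.Adj b d)
    (hcd : c ≠ d → G.Adj c d) : (Bt y c a d ↔ Bt y c b d) := by
  by_cases hab : a = b
  · rw [hab]
  by_cases hcd' : c = d
  · subst hcd'
    have h1 := bt_self (anti c hc a ha hac.symm)
    have h2 := bt_self (anti c hc b hb hbc.symm)
    tauto
  · exact h a ha b hb c hc d hd hab hnab hac had hbc hbd (hcd hcd')

/-- The invariant of the induction. -/
def Inv (G : SimpleGraph V) (y : V → V → Prop) (s : Finset V) (r : V → ℚ) : Prop :=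
  (∀ u ∈ s, ∀ v ∈ s, G.Adj u v → r u ≠ r v) ∧
  (∀ Q, MaxClq G s Q → ∀ A, IsMod y Q A → IsMod (ltr r) Q A) ∧ Dia G s (ltr r)

/-- the position of a new simplicial vertex -/
lemma position (y : V → V → Prop) (s : Finset V) (v : V) (hv : v ∉ s) (K : Finset V)
    (hKdef : ∀ x, x ∈ K ↔ x ∈ s ∧ G.Adj v x)
    (hKc : ∀ a ∈ K, ∀ b ∈ K, a ≠ b → G.Adj a b)
    (anti : ∀ a b, G.Adj a b → (y a b ↔ ¬ y b a)) (hD : Dia G (insert v s) y)
    (r : V → ℚ) (hr : Inv G y s r) :
    ∃ q : ℚ, (∀ x ∈ K, r x ≠ q) ∧ (∀ A, A ⊆ K → IsMod y (insert v K) A →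
      ∀ a ∈ A, ∀ a' ∈ A, ∀ c ∈ K, c ∉ A → ((r a < q ↔ q < r a') ↔ Bt (ltr r) a c a')) ∧
      ∀ e ∈ s, e ∉ K → ∀ c ∈ K, ∀ d ∈ K, G.Adj e c → G.Adj e d →
        ((r c < q ↔ q < r d) ↔ Bt (ltr r) c e d) := by
  obtain ⟨hr1, hr2, hr3⟩ := hr
  have hKs : K ⊆ s := fun x hx => ((hKdef x).1 hx).1
  have hvI : v ∈ insert v s := Finset.mem_insert_self _ _
  have hI : ∀ a ∈ s, a ∈ insert v s := fun a ha => Finset.mem_insert_of_mem ha
  have anti' : ∀ a ∈ insert v s, ∀ b ∈ insert v s, G.Adj a b → (y a b ↔ ¬ y b a) :=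
    fun a _ b _ h => anti a b h
  have ranti : ∀ a ∈ s, ∀ b ∈ s, G.Adj a b → (ltr r a b ↔ ¬ ltr r b a) :=
    fun a ha b hb h => ltr_anti (hr1 a ha b hb h)
  -- diamonds at `v`
  have hDv : ∀ e ∈ s, e ∉ K → ∀ c ∈ K, ∀ d ∈ K, G.Adj e c → G.Adj e d →
      (Bt y c v d ↔ Bt y c e d) := by
    intro e he heK c hc d hd hec hed
    exact hD.weak anti' hvI (hI e he) (hI c (hKs hc)) (hI d (hKs hd))
      (fun h => heK ((hKdef e).2 ⟨he, h⟩)) ((hKdef c).1 hc).2 ((hKdef d).1 hd).2 hec hed
      (hKc c hc d hd)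
  by_cases hcase : ∃ b ∈ s, b ∉ K ∧ ∀ x ∈ K, G.Adj b x
  · obtain ⟨b, hb, hbK, hbadj⟩ := hcase
    obtain ⟨Q, hQ1, hQ⟩ := exists_maxClq (G := G) s (insert b K) (Finset.insert_subset hb hKs) (by
      intro a ha a' ha' haa
      rcases Finset.mem_insert.1 ha with rfl | ha1 <;>
        rcases Finset.mem_insert.1 ha' with rfl | ha2
      · exact absurd rfl haa
      · exact hbadj a' ha2
      · exact (hbadj a ha1).symm
      · exact hKc a ha1 a' ha2 haa)
    have hbQ : b ∈ Q := hQ1 (Finset.mem_insert_self _ _)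
    have hKQ : K ⊆ Q := (Finset.subset_insert _ _).trans hQ1
    have hout : ∀ x ∈ Q, x ∉ K → ∀ c ∈ K, ∀ d ∈ K, (Bt y c v d ↔ Bt y c x d) := by
      intro x hx hxK c hc d hd
      exact hDv x (hQ.1 hx) hxK c hc d hd (hQ.2.1 x hx c (hKQ hc) (fun e => hxK (e ▸ hc)))
        (hQ.2.1 x hx d (hKQ hd) (fun e => hxK (e ▸ hd)))
    -- a criterion for modules of `Q`
    have hcrit : ∀ A, A ⊆ K →
        (∀ a ∈ A, ∀ a' ∈ A, ∀ c ∈ K, c ∉ A → (Bt y a v a' ↔ Bt y a c a')) →
        IsMod (ltr r) Q A := by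
      intro A hAK hA
      apply hr2 Q hQ
      refine ⟨hAK.trans hKQ, ?_⟩
      have key : ∀ a ∈ A, ∀ a' ∈ A, ∀ c ∈ Q, c ∉ A → (Bt y a v a' ↔ Bt y a c a') := by
        intro a ha a' ha' c hc hcA
        by_cases hcK : c ∈ K
        · exact hA a ha a' ha' c hcK hcA
        · exact hout c hc hcK a (hAK ha) a' (hAK ha')
      intro a ha a' ha' c hc hcA d hd hdA
      exact (key a ha a' ha' c hc hcA).symm.trans (key a ha a' ha' d hd hdA)
    refine ⟨r b, ?_, ?_, ?_⟩
    · intro x hx
      exact hr1 x (hKs hx) b hb (hbadj x hx).symm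
    · intro A hAK hA a ha a' ha' c hc hcA
      have h1 := hcrit A hAK (by
        intro a ha a' ha' c hc hcA
        exact hA.2 a ha a' ha' v (Finset.mem_insert_self _ _) (fun h => hv (hKs (hAK h))) c
          (Finset.mem_insert_of_mem hc) hcA)
      exact h1.2 a ha a' ha' b hbQ (fun h => hbK (hAK h)) c (hKQ hc) hcA
    · intro e he heK c hc d hd hec hed
      change (Bt (ltr r) c b d ↔ _)
      by_cases heQ : e ∈ Q
      · have h1 := hcrit K subset_rfl (fun a _ a' _ c hc hcK => absurd hc hcK)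
        exact h1.2 c hc d hd b hbQ hbK e heQ heK
      · obtain ⟨x, hxQ, hex⟩ := hQ.2.2 e he heQ
        have hAK : K.filter (fun z => G.Adj e z) ⊆ K := Finset.filter_subset _ _
        have h1 := hcrit (K.filter (fun z => G.Adj e z)) hAK (by
          intro a ha a' ha' z hz hzA
          rw [Finset.mem_filter] at ha ha' hzA
          have hez : ¬ G.Adj e z := fun h => hzA ⟨hz, h⟩
          refine (hDv e he heK a ha.1 a' ha'.1 ha.2 ha'.2).trans ?_
          exact hD.weak anti' (hI e he) (hI z (hKs hz)) (hI a (hKs ha.1)) (hI a' (hKs ha'.1)) hez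
            ha.2 ha'.2 (hKc z hz a ha.1 (fun h => hez (h ▸ ha.2)))
            (hKc z hz a' ha'.1 (fun h => hez (h ▸ ha'.2))) (hKc a ha.1 a' ha'.1))
        have h2 := h1.2 c (Finset.mem_filter.2 ⟨hc, hec⟩) d (Finset.mem_filter.2 ⟨hd, hed⟩) b hbQ
          (fun h => hbK (hAK h)) x hxQ (fun h => hex (Finset.mem_filter.1 h).2)
        refine h2.trans ?_
        exact (hr3.weak ranti he (hQ.1 hxQ) (hKs hc) (hKs hd) hex hec hed
          (hQ.2.1 x hxQ c (hKQ hc) (fun h => hex (h ▸ hec)))
          (hQ.2.1 x hxQ d (hKQ hd) (fun h => hex (h ▸ hed))) (hKc c hc d hd)).symm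
  · have hKmax : MaxClq G s K := by
      refine ⟨hKs, hKc, ?_⟩
      intro x hx hxK
      by_contra hcon
      push Not at hcon
      exact hcase ⟨x, hx, hxK, hcon⟩
    have hIc : ∀ a ∈ insert v K, ∀ b ∈ insert v K, a ≠ b → G.Adj a b := by
      intro a ha a' ha' haa
      rcases Finset.mem_insert.1 ha with rfl | ha1 <;>
        rcases Finset.mem_insert.1 ha' with rfl | ha2
      · exact absurd rfl haa
      · exact ((hKdef a').1 ha2).2
      · exact ((hKdef a).1 ha1).2.symm
      · exact hKc a ha1 a' ha2 haa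
    obtain ⟨q, hq1, hq2⟩ := insertion K v (fun h => hv (hKs h)) y
      (fun a ha b hb hab => anti a b (hIc a ha b hb hab)) r
      (fun a ha b hb hab => hr1 a (hKs ha) b (hKs hb) (hKc a ha b hb hab)) (hr2 K hKmax)
    refine ⟨q, hq1, hq2, ?_⟩
    intro e he heK c hc d hd hec hed
    obtain ⟨x, hxK, hex⟩ := hKmax.2.2 e he heK
    have hAK : K.filter (fun z => G.Adj e z) ⊆ K := Finset.filter_subset _ _
    have key : ∀ a ∈ K.filter (fun z => G.Adj e z), ∀ a' ∈ K.filter (fun z => G.Adj e z),
        ∀ z ∈ insert v K, z ∉ K.filter (fun z => G.Adj e z) → (Bt y a z a' ↔ Bt y a e a') := by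
      intro a ha a' ha' z hz hzA
      rw [Finset.mem_filter] at ha ha' hzA
      rcases Finset.mem_insert.1 hz with rfl | hz
      · exact hDv e he heK a ha.1 a' ha'.1 ha.2 ha'.2
      · have hez : ¬ G.Adj e z := fun h => hzA ⟨hz, h⟩
        exact (hD.weak anti' (hI e he) (hI z (hKs hz)) (hI a (hKs ha.1)) (hI a' (hKs ha'.1)) hez
            ha.2 ha'.2 (hKc z hz a ha.1 (fun h => hez (h ▸ ha.2)))
            (hKc z hz a' ha'.1 (fun h => hez (h ▸ ha'.2))) (hKc a ha.1 a' ha'.1)).symm
    have h1 := hq2 _ hAK ⟨hAK.trans (Finset.subset_insert _ _), by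
      intro a ha a' ha' z hz hzA z' hz' hzA'
      exact (key a ha a' ha' z hz hzA).trans (key a ha a' ha' z' hz' hzA').symm⟩
      c (Finset.mem_filter.2 ⟨hc, hec⟩) d (Finset.mem_filter.2 ⟨hd, hed⟩) x hxK
      (fun h => hex (Finset.mem_filter.1 h).2)
    refine h1.trans ?_
    exact (hr3.weak ranti he (hKs hxK) (hKs hc) (hKs hd) hex hec hed
      (hKc x hxK c hc (fun h => hex (h ▸ hec))) (hKc x hxK d hd (fun h => hex (h ▸ hed)))
      (hKc c hc d hd)).symm

lemma Dia.mono {s t : Finset V} {y : V → V → Prop} (h : Dia G t y) (hst : s ⊆ t) : Dia G s y :=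
  fun a ha b hb c hc d hd => h a (hst ha) b (hst hb) c (hst hc) d (hst hd)

lemma exists_inv (hG : IsChordal G) (y : V → V → Prop)
    (anti : ∀ a b, G.Adj a b → (y a b ↔ ¬ y b a)) : ∀ (n : ℕ) (s : Finset V), s.card = n →
    Dia G s y → ∃ r, Inv G y s r := by
  intro n
  induction n with
  | zero =>
    intro s hs _
    rw [Finset.card_eq_zero] at hs
    subst hs
    refine ⟨fun _ => 0, by simp, ?_, by simp [Dia]⟩
    intro Q hQ A hA
    have : A = ∅ := Finset.subset_empty.1 (hA.1.trans hQ.1)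
    subst this
    exact ⟨by simp, by simp⟩
  | succ n ih =>
    intro t ht hD
    obtain ⟨v, hvt, hv⟩ := exists_simplicial' hG t (Finset.card_pos.1 (by omega))
    obtain ⟨s, hvs, rfl⟩ : ∃ s, v ∉ s ∧ t = insert v s :=
      ⟨t.erase v, Finset.notMem_erase _ _, (Finset.insert_erase hvt).symm⟩
    rw [Finset.card_insert_of_notMem hvs] at ht
    obtain ⟨r, hr⟩ := ih s (by omega) (hD.mono (Finset.subset_insert _ _))
    have hI : ∀ a ∈ s, a ∈ insert v s := fun a ha => Finset.mem_insert_of_mem ha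
    obtain ⟨K, hKdef⟩ : ∃ K : Finset V, ∀ x, x ∈ K ↔ x ∈ s ∧ G.Adj v x :=
      ⟨s.filter (fun x => G.Adj v x), fun x => Finset.mem_filter⟩
    have hKs : K ⊆ s := fun x hx => ((hKdef x).1 hx).1
    have hKc : ∀ a ∈ K, ∀ b ∈ K, a ≠ b → G.Adj a b := fun a ha b hb hab =>
      hv a (hI a (hKs ha)) b (hI b (hKs hb)) ((hKdef a).1 ha).2 ((hKdef b).1 hb).2 hab
    obtain ⟨q, hq1, hq2, hq3⟩ := position y s v hvs K hKdef hKc anti hD r hr
    obtain ⟨hr1, hr2, hr3⟩ := hr
    obtain ⟨r', hr'v, hr's⟩ : ∃ r' : V → ℚ, r' v = q ∧ ∀ x ∈ s, r' x = r x :=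
      ⟨Function.update r v q, by simp, fun x hx => Function.update_of_ne
        (fun (e : x = v) => hvs (e ▸ hx)) _ _⟩
    have hbt : ∀ a ∈ s, ∀ c ∈ s, ∀ a' ∈ s, (Bt (ltr r') a c a' ↔ Bt (ltr r) a c a') := by
      intro a ha c hc a' ha'
      unfold Bt ltr
      rw [hr's a ha, hr's c hc, hr's a' ha']
    have hbtv : ∀ a ∈ s, ∀ a' ∈ s, (Bt (ltr r') a v a' ↔ (r a < q ↔ q < r a')) := by
      intro a ha a' ha'
      unfold Bt ltr
      rw [hr's a ha, hr'v, hr's a' ha']
    have hne : ∀ u ∈ insert v s, ∀ w ∈ insert v s, G.Adj u w → r' u ≠ r' w := by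
      intro u hu w hw huw
      rcases Finset.mem_insert.1 hu with rfl | hu1 <;>
        rcases Finset.mem_insert.1 hw with rfl | hw1
      · exact absurd huw (G.loopless.irrefl _)
      · rw [hr'v, hr's w hw1]
        exact (hq1 w ((hKdef w).2 ⟨hw1, huw⟩)).symm
      · rw [hr'v, hr's u hu1]
        exact hq1 u ((hKdef u).2 ⟨hu1, huw.symm⟩)
      · rw [hr's u hu1, hr's w hw1]
        exact hr1 u hu1 w hw1 huw
    refine ⟨r', hne, ?_, ?_⟩
    · intro Q hQ A hA
      by_cases hvQ : v ∈ Q
      · have hQK : Q = insert v K := by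
          apply Finset.Subset.antisymm
          · intro x hx
            by_cases hxv : x = v
            · rw [hxv]; exact Finset.mem_insert_self _ _
            · refine Finset.mem_insert_of_mem ((hKdef x).2 ⟨?_, hQ.2.1 v hvQ x hx (Ne.symm hxv)⟩)
              exact (Finset.mem_insert.1 (hQ.1 hx)).resolve_left hxv
          · intro x hx
            rcases Finset.mem_insert.1 hx with rfl | hx
            · exact hvQ
            · by_contra hxQ
              obtain ⟨a, ha, hxa⟩ := hQ.2.2 x (hI x (hKs hx)) hxQ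
              apply hxa
              by_cases hav : a = v
              · rw [hav]; exact ((hKdef x).1 hx).2.symm
              · exact hv x (hI x (hKs hx)) a (hQ.1 ha) ((hKdef x).1 hx).2
                  (hQ.2.1 v hvQ a ha (Ne.symm hav)) (fun e => hxQ (e ▸ ha))
        have main : ∀ A, v ∉ A → IsMod y Q A → IsMod (ltr r') Q A := by
          intro A hvA hA
          have hAK : A ⊆ K := by
            intro x hx
            have := hA.1 hx
            rw [hQK] at this
            exact (Finset.mem_insert.1 this).resolve_left (fun e => hvA (e ▸ hx))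
          refine ⟨hA.1, ?_⟩
          have key : ∀ a ∈ A, ∀ a' ∈ A, ∀ c ∈ Q, c ∉ A →
              (Bt (ltr r') a c a' ↔ (r a < q ↔ q < r a')) := by
            intro a ha a' ha' c hc hcA
            rw [hQK] at hc
            rcases Finset.mem_insert.1 hc with rfl | hc
            · exact hbtv a (hKs (hAK ha)) a' (hKs (hAK ha'))
            · rw [hbt a (hKs (hAK ha)) c (hKs hc) a' (hKs (hAK ha'))]
              exact (hq2 A hAK (hQK ▸ hA) a ha a' ha' c hc hcA).symm
          intro a ha a' ha' c hc hcA d hd hdA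
          exact (key a ha a' ha' c hc hcA).trans (key a ha a' ha' d hd hdA).symm
        by_cases hvA : v ∈ A
        · have h1 := main (Q \ A) (fun h => (Finset.mem_sdiff.1 h).2 hvA)
            (hA.compl (fun a ha b hb hab => anti a b (hQ.2.1 a ha b hb hab)))
          have h2 := h1.compl (fun a ha b hb hab =>
            ltr_anti (hne a (hQ.1 ha) b (hQ.1 hb) (hQ.2.1 a ha b hb hab)))
          rwa [Finset.sdiff_sdiff_eq_self hA.1] at h2
        · exact main A hvA hA
      · have hQs : Q ⊆ s := fun x hx =>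
          (Finset.mem_insert.1 (hQ.1 hx)).resolve_left (fun e => hvQ (e ▸ hx))
        have h1 := hr2 Q ⟨hQs, hQ.2.1, fun x hx hxQ => hQ.2.2 x (hI x hx) hxQ⟩ A hA
        refine ⟨hA.1, ?_⟩
        intro a ha a' ha' c hc hcA d hd hdA
        rw [hbt a (hQs (hA.1 ha)) c (hQs hc) a' (hQs (hA.1 ha')),
          hbt a (hQs (hA.1 ha)) d (hQs hd) a' (hQs (hA.1 ha'))]
        exact h1.2 a ha a' ha' c hc hcA d hd hdA
    · intro a ha b hb c hc d hd hab hnab hac had hbc hbd hcd
      have hcv : c ≠ v := by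
        rintro rfl
        exact hnab (hv a ha b hb hac.symm hbc.symm hab)
      have hdv : d ≠ v := by
        rintro rfl
        exact hnab (hv a ha b hb had.symm hbd.symm hab)
      have hcs := (Finset.mem_insert.1 hc).resolve_left hcv
      have hds := (Finset.mem_insert.1 hd).resolve_left hdv
      rcases Finset.mem_insert.1 ha with rfl | ha1 <;>
        rcases Finset.mem_insert.1 hb with rfl | hb1
      · exact absurd rfl hab
      · rw [hbtv c hcs d hds, hbt c hcs b hb1 d hds]
        exact hq3 b hb1 (fun h => hnab ((hKdef b).1 h).2) c ((hKdef c).2 ⟨hcs, hac⟩) d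
          ((hKdef d).2 ⟨hds, had⟩) hbc hbd
      · rw [hbtv c hcs d hds, hbt c hcs a ha1 d hds]
        exact (hq3 a ha1 (fun h => hnab ((hKdef a).1 h).2.symm) c ((hKdef c).2 ⟨hcs, hbc⟩) d
          ((hKdef d).2 ⟨hds, hbd⟩) hac had).symm
      · rw [hbt c hcs a ha1 d hds, hbt c hcs b hb1 d hds]
        exact hr3 a ha1 b hb1 c hcs d hds hab hnab hac had hbc hbd hcd

/-- a rank function satisfying the diamond condition has no shortcut -/
lemma no_shortcut_of_dia [Fintype V] (hG : IsChordal G) (r : V → ℚ)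
    (hD : Dia G Finset.univ (ltr r)) : ∀ (k : ℕ) (p : ℕ → V),
    (∀ i < k, G.Adj (p i) (p (i + 1)) ∧ r (p i) < r (p (i + 1))) → G.Adj (p 0) (p k) →
    ∀ i j, i < j → j ≤ k → G.Adj (p i) (p j) := by
  intro k
  induction k using Nat.strong_induction_on with
  | _ k ih =>
    intro p hp h0k
    have hmono : ∀ i j, i < j → j ≤ k → r (p i) < r (p j) := by
      intro i j hij hj
      induction j with
      | zero => omega
      | succ j ihj =>
        rcases Nat.lt_succ_iff_lt_or_eq.1 hij with h | h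
        · exact (ihj h (by omega)).trans (hp j (by omega)).2
        · rw [h]; exact (hp j (by omega)).2
    by_cases hk : 3 ≤ k
    · obtain ⟨i, j, hij, hj, hne, hadj⟩ := chord_seq hG p k hk (fun i hi => (hp i hi).1) h0k.symm
        (fun i j hij hj h => by
          have := hmono i j hij hj
          rw [h] at this
          exact lt_irrefl _ this)
      have in1 : ∀ a b, i ≤ a → a < b → b ≤ j → G.Adj (p a) (p b) := by
        intro a b ha hab hb
        have := ih (j - i) (by omega) (fun m => p (i + m)) (fun m hm => hp (i + m) (by omega))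
          (by simpa [show i + (j - i) = j by omega] using hadj) (a - i) (b - i) (by omega)
          (by omega)
        simpa [show i + (a - i) = a by omega, show i + (b - i) = b by omega] using this
      have in2 : ∀ a b, a < b → b ≤ k → (a ≤ i ∨ j ≤ a) → (b ≤ i ∨ j ≤ b) →
          G.Adj (p a) (p b) := by
        intro a b hab hb ha' hb'
        let p' : ℕ → V := fun m => if m ≤ i then p m else p (m + (j - i - 1))
        have e1 : ∀ m ≤ i, p' m = p m := fun m hm => by simp [p', hm]
        have e2 : ∀ m, j ≤ m → p' (m - (j - i - 1)) = p m := by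
          intro m hm
          have h1 : ¬ (m - (j - i - 1) ≤ i) := by omega
          simp only [p', h1, if_false]
          congr 1
          omega
        have := ih (k - (j - i - 1)) (by omega) p' (by
          intro m hm
          by_cases h1 : m + 1 ≤ i
          · rw [e1 m (by omega), e1 (m + 1) h1]
            exact hp m (by omega)
          · by_cases h2 : m ≤ i
            · have h3 : m = i := by omega
              have h4 := e2 j le_rfl
              rw [show j - (j - i - 1) = m + 1 by omega] at h4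
              rw [e1 m h2, h4, h3]
              exact ⟨hadj, hmono i j (by omega) hj⟩
            · have h4 := e2 (m + (j - i - 1)) (by omega)
              have h5 := e2 (m + (j - i - 1) + 1) (by omega)
              rw [show m + (j - i - 1) - (j - i - 1) = m by omega] at h4
              rw [show m + (j - i - 1) + 1 - (j - i - 1) = m + 1 by omega] at h5
              rw [h4, h5]
              exact hp _ (by omega)) (by rw [e1 0 (by omega), e2 k hj]; exact h0k)
        rcases ha' with ha' | ha' <;> rcases hb' with hb' | hb'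
        · have h1 := this a b hab (by omega)
          rwa [e1 a ha', e1 b hb'] at h1
        · have h1 := this a (b - (j - i - 1)) (by omega) (by omega)
          rwa [e1 a ha', e2 b hb'] at h1
        · omega
        · have h1 := this (a - (j - i - 1)) (b - (j - i - 1)) (by omega) (by omega)
          rwa [e2 a ha', e2 b hb'] at h1
      intro a b hab hb
      by_cases c1 : (a ≤ i ∨ j ≤ a) ∧ (b ≤ i ∨ j ≤ b)
      · exact in2 a b hab hb c1.1 c1.2
      by_cases c2 : i ≤ a ∧ b ≤ j
      · exact in1 a b c2.1 hab c2.2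
      by_contra hnab
      have hab' : p a ≠ p b := fun h => by
        have := hmono a b hab hb
        rw [h] at this
        exact lt_irrefl _ this
      have hij' := hmono i j (by omega) hj
      rcases (show (a < i ∧ i < b ∧ b < j) ∨ (i < a ∧ a < j ∧ j < b) by omega) with h | h
      · have := hD (p a) (by simp) (p b) (by simp) (p i) (by simp) (p j) (by simp) hab' hnab
          (in2 a i h.1 (by omega) (by omega) (by omega))
          (in2 a j (by omega) hj (by omega) (by omega))
          (in1 i b le_rfl h.2.1 (by omega)).symm (in1 b j (by omega) h.2.2 le_rfl) hadj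
        unfold Bt ltr at this
        have a1 := hmono a i h.1 (by omega)
        have a2 := hmono i b h.2.1 hb
        have a3 := hmono b j h.2.2 hj
        have a4 := (this.2 ⟨fun _ => a3, fun _ => a2⟩).2 (by linarith)
        linarith
      · have := hD (p a) (by simp) (p b) (by simp) (p i) (by simp) (p j) (by simp) hab' hnab
          (in1 i a le_rfl h.1 (by omega)).symm (in1 a j (by omega) h.2.1 le_rfl)
          (in2 i b (by omega) hb (by omega) (by omega)).symm
          (in2 j b h.2.2 hb (by omega) (by omega)).symm hadj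
        unfold Bt ltr at this
        have a1 := hmono i a h.1 (by omega)
        have a2 := hmono a j h.2.1 hj
        have a3 := hmono j b h.2.2 hb
        have a4 := (this.1 ⟨fun _ => a2, fun _ => a1⟩).1 (by linarith)
        linarith
    · intro a b hab hb
      rcases (show b = a + 1 ∨ (a = 0 ∧ b = k) by omega) with h | h
      · rw [h]; exact (hp a (by omega)).1
      · rw [h.1, h.2]; exact h0k

lemma parity_key (ac ad bc bd : Prop) (s1 : ac → ¬ bc → bd → ad → False)
    (s2 : ad → ¬ bd → bc → ac → False) (s3 : bc → ¬ ac → ad → bd → False)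
    (s4 : bd → ¬ ad → ac → bc → False) (s5 : ¬ ac → ad → ¬ bd → ¬ bc → False)
    (s6 : ¬ ad → ac → ¬ bc → ¬ bd → False) (s7 : ¬ bc → bd → ¬ ad → ¬ ac → False)
    (s8 : ¬ bd → bc → ¬ ac → ¬ ad → False) : ((¬ ac ↔ ad) ↔ (¬ bc ↔ bd)) := by
  by_cases h1 : ac <;> by_cases h2 : ad <;> by_cases h3 : bc <;> by_cases h4 : bd <;>
    simp only [h1, h2, h3, h4, not_true_eq_false, not_false_eq_true, forall_const,
      iff_self, iff_false, iff_true, false_iff, true_iff] at s1 s2 s3 s4 s5 s6 s7 s8 ⊢

/-- **Main theorem.** -/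
theorem semiTransitive_iff [Fintype V] (hG : IsChordal G) : IsSemiTransitive G ↔
    ∃ y : V → V → Prop, (∀ a b, G.Adj a b → (y a b ↔ ¬ y b a)) ∧ Dia G Finset.univ y := by
  constructor
  · rintro ⟨D, hD⟩
    refine ⟨D, fun a b hab => ⟨hD.not_both a b, fun h => (hD.arc_of_adj a b hab).resolve_right h⟩,
      ?_⟩
    have sc : ∀ x y z w, D x y → D y z → D z w → D x w → D x z ∧ D y w := by
      intro x y z w h1 h2 h3 h4
      let p : ℕ → V := fun m => if m = 0 then x else if m = 1 then y else if m = 2 then z else w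
      have := hD.no_shortcut 3 p le_rfl (by
        intro i hi
        interval_cases i
        · exact h1
        · exact h2
        · exact h3) h4
      exact ⟨this 0 2 (by omega) (by omega), this 1 3 (by omega) (by omega)⟩
    intro a _ b _ c _ d _ hab hnab hac had hbc hbd hcd
    have n1 : ¬ D a b := fun h => hnab (hD.adj_of_arc a b h)
    have n2 : ¬ D b a := fun h => hnab (hD.adj_of_arc b a h).symm
    have an : ∀ u v, G.Adj u v → (D v u ↔ ¬ D u v) := fun u v h =>
      ⟨hD.not_both v u, fun h' => (hD.arc_of_adj u v h).resolve_left h'⟩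
    have e1 := an a c hac
    have e2 := an a d had
    have e3 := an b c hbc
    have e4 := an b d hbd
    unfold Bt
    rw [e1, e3]
    refine parity_key (D a c) (D a d) (D b c) (D b d) ?_ ?_ ?_ ?_ ?_ ?_ ?_ ?_
    · exact fun h1 h2 h3 h4 => n1 (sc a c b d h1 (e3.2 h2) h3 h4).1
    · exact fun h1 h2 h3 h4 => n1 (sc a d b c h1 (e4.2 h2) h3 h4).1
    · exact fun h1 h2 h3 h4 => n2 (sc b c a d h1 (e1.2 h2) h3 h4).1
    · exact fun h1 h2 h3 h4 => n2 (sc b d a c h1 (e2.2 h2) h3 h4).1
    · exact fun h1 h2 h3 h4 => n1 (sc c a d b (e1.2 h1) h2 (e4.2 h3) (e3.2 h4)).2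
    · exact fun h1 h2 h3 h4 => n1 (sc d a c b (e2.2 h1) h2 (e3.2 h3) (e4.2 h4)).2
    · exact fun h1 h2 h3 h4 => n2 (sc c b d a (e3.2 h1) h2 (e2.2 h3) (e1.2 h4)).2
    · exact fun h1 h2 h3 h4 => n2 (sc d b c a (e4.2 h1) h2 (e1.2 h3) (e2.2 h4)).2
  · rintro ⟨y, anti, hy⟩
    obtain ⟨r, hr1, -, hr3⟩ := exists_inv hG y anti _ Finset.univ rfl hy
    refine ⟨fun u v => G.Adj u v ∧ r u < r v, ⟨fun u v h => h.1, ?_, ?_, ?_, ?_⟩⟩
    · intro u v huv
      rcases lt_or_gt_of_ne (hr1 u (by simp) v (by simp) huv) with h | h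
      · exact Or.inl ⟨huv, h⟩
      · exact Or.inr ⟨huv.symm, h⟩
    · intro u v h h'
      exact lt_asymm h.2 h'.2
    · intro v hv
      have : ∀ u w, Relation.TransGen (fun u v => G.Adj u v ∧ r u < r v) u w → r u < r w := by
        intro u w h
        induction h with
        | single h => exact h.2
        | tail _ h ih => exact ih.trans h.2
      exact lt_irrefl _ (this v v hv)
    · intro k p _ hp h0 i j hij hj
      refine ⟨no_shortcut_of_dia hG r hr3 k p hp h0.1 i j hij hj, ?_⟩
      induction j with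
      | zero => omega
      | succ j ihj =>
        rcases Nat.lt_succ_iff_lt_or_eq.1 hij with h | h
        · exact (ihj h (by omega)).trans (hp j (by omega)).2
        · rw [h]; exact (hp j (by omega)).2

end Pool.Agent.H210Z.ST
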