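import Pool.Agent.H210Z.ST.Defs

/-!
# Simplicial vertices of chordal graphs (Dirac)

The argument follows the start file `Results/MP_24e13c_co/ChordalNERD`, adapted to the definition
of chordality by chords of cycles.
-/

set_option autoImplicit false

namespace Pool.Agent.H210Z.ST

open Classical

variable {V : Type} {G : SimpleGraph V}

/-- the walk along a sequence -/
def walkOf (c : ℕ → V) : (k : ℕ) → (∀ i < k, G.Adj (c i) (c (i + 1))) → G.Walk (c 0) (c k)
  | 0, _ => SimpleGraph.Walk.nil
  | k + 1, h => (walkOf c k (fun i hi => h i (by omega))).concat (h k (by omega))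

lemma walkOf_length (c : ℕ → V) : ∀ (k : ℕ) (h : ∀ i < k, G.Adj (c i) (c (i + 1))),
    (walkOf c k h).length = k
  | 0, _ => rfl
  | k + 1, h => by simp [walkOf, walkOf_length c k]

lemma walkOf_support (c : ℕ → V) : ∀ (k : ℕ) (h : ∀ i < k, G.Adj (c i) (c (i + 1))),
    (walkOf c k h).support = (List.range (k + 1)).map c
  | 0, _ => rfl
  | k + 1, h => by
    simp only [walkOf, SimpleGraph.Walk.support_concat, walkOf_support c k]
    rw [List.range_succ (n := k + 1)]
    simp

lemma walkOf_edges (c : ℕ → V) : ∀ (k : ℕ) (h : ∀ i < k, G.Adj (c i) (c (i + 1))),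
    (walkOf c k h).edges = (List.range k).map (fun i => s(c i, c (i + 1)))
  | 0, _ => rfl
  | k + 1, h => by
    simp only [walkOf, SimpleGraph.Walk.edges_concat, walkOf_edges c k]
    rw [List.range_succ (n := k)]
    simp

/-- chordality for sequences -/
lemma chord_seq (hG : IsChordal G) (c : ℕ → V) (k : ℕ) (hk : 3 ≤ k)
    (h : ∀ i < k, G.Adj (c i) (c (i + 1))) (hcl : G.Adj (c k) (c 0))
    (hinj : ∀ i j, i < j → j ≤ k → c i ≠ c j) :
    ∃ i j, i + 1 < j ∧ j ≤ k ∧ ¬ (i = 0 ∧ j = k) ∧ G.Adj (c i) (c j) := by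
  have hinj' : ∀ i j, i ≤ k → j ≤ k → c i = c j → i = j := by
    intro i j hi hj hij
    rcases Nat.lt_trichotomy i j with h1 | h1 | h1
    · exact absurd hij (hinj i j h1 hj)
    · exact h1
    · exact absurd hij.symm (hinj j i h1 hi)
  have hcyc : (SimpleGraph.Walk.cons hcl (walkOf c k h)).IsCycle := by
    rw [SimpleGraph.Walk.cons_isCycle_iff]
    constructor
    · rw [SimpleGraph.Walk.isPath_def, walkOf_support]
      refine List.Nodup.map_on ?_ List.nodup_range
      intro i hi j hj hij
      rw [List.mem_range] at hi hj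
      exact hinj' i j (by omega) (by omega) hij
    · rw [walkOf_edges, List.mem_map]
      rintro ⟨i, hi, he⟩
      rw [List.mem_range] at hi
      rw [Sym2.eq_iff] at he
      rcases he with ⟨h1, _⟩ | ⟨h1, h2⟩
      · have := hinj' i k (by omega) le_rfl h1
        omega
      · have := hinj' i 0 (by omega) (by omega) h1
        have := hinj' (i + 1) k (by omega) le_rfl h2
        omega
  obtain ⟨e, he⟩ := hG _ _ hcyc (by simp [walkOf_length]; omega)
  induction e using Sym2.ind with
  | h a b =>
    rw [SimpleGraph.Walk.isChord_sym2Mk] at he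
    obtain ⟨hab, hne, ha, hb⟩ := he
    have hmem : ∀ x, x ∈ (SimpleGraph.Walk.cons hcl (walkOf c k h)).support → ∃ i ≤ k, c i = x := by
      intro x hx
      rw [SimpleGraph.Walk.support_cons, walkOf_support, List.mem_cons, List.mem_map] at hx
      rcases hx with hx | ⟨i, hi, hx⟩
      · exact ⟨k, le_rfl, hx.symm⟩
      · rw [List.mem_range] at hi
        exact ⟨i, by omega, hx⟩
    obtain ⟨i, hi, rfl⟩ := hmem a ha
    obtain ⟨j, hj, rfl⟩ := hmem b hb
    rw [SimpleGraph.Walk.edges_cons, walkOf_edges, List.mem_cons, List.mem_map, not_or] at hne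
    obtain ⟨hne1, hne2⟩ := hne
    have key : ∀ i j, i < j → j ≤ k → G.Adj (c i) (c j) → s(c i, c j) ≠ s(c k, c 0) →
        (¬ ∃ a ∈ List.range k, s(c a, c (a + 1)) = s(c i, c j)) →
        ∃ i j, i + 1 < j ∧ j ≤ k ∧ ¬ (i = 0 ∧ j = k) ∧ G.Adj (c i) (c j) := by
      intro i j hij hj hadj h1 h2
      refine ⟨i, j, ?_, hj, ?_, hadj⟩
      · by_contra hc
        have : j = i + 1 := by omega
        subst this
        exact h2 ⟨i, List.mem_range.2 (by omega), rfl⟩
      · rintro ⟨rfl, rfl⟩
        exact h1 (Sym2.eq_swap)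
    rcases Nat.lt_trichotomy i j with h1 | h1 | h1
    · exact key i j h1 hj hab hne1 hne2
    · subst h1
      exact absurd hab (G.loopless.irrefl _)
    · refine key j i h1 hi hab.symm ?_ ?_
      · rw [Sym2.eq_swap]; exact hne1
      · rw [Sym2.eq_swap (a := c j)]; exact hne2

/-- A path of length `k` from `x` to `y` with interior in `H`. -/
def PathIn (G : SimpleGraph V) (H : V → Prop) (x y : V) (k : ℕ) (q : ℕ → V) : Prop :=
  q 0 = x ∧ q k = y ∧ (∀ i < k, G.Adj (q i) (q (i + 1))) ∧ ∀ i, 0 < i → i < k → H (q i)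

lemma clique_sep (hG : IsChordal G) {H : V → Prop} {v x y : V}
    (hvH : ∀ h, H h → h ≠ v ∧ ¬ G.Adj v h) (hvx : G.Adj v x) (hvy : G.Adj v y)
    (hxy : x ≠ y) (hex : ∃ k q, PathIn G H x y k q) : G.Adj x y := by
  by_contra hnadj
  obtain ⟨k, ⟨q, hq⟩, hmin⟩ : ∃ k, (∃ q, PathIn G H x y k q) ∧
      ∀ m < k, ¬ ∃ q, PathIn G H x y m q := by
    refine ⟨Nat.find hex, Nat.find_spec hex, fun m hm => Nat.find_min hex hm⟩
  obtain ⟨hq0, hqk, hadj, hin⟩ := hq
  have hxH : ¬ H x := fun h => (hvH x h).2 hvx
  have hyH : ¬ H y := fun h => (hvH y h).2 hvy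
  -- no shortcuts
  have hshort : ∀ i j, i + 1 < j → j ≤ k → ¬ G.Adj (q i) (q j) := by
    intro i j hij hjk hadj'
    apply hmin (k - (j - i - 1)) (by omega)
    refine ⟨fun m => if m ≤ i then q m else q (m + (j - i - 1)), ?_, ?_, ?_, ?_⟩
    · simp [hq0]
    · have h1 : ¬ (k - (j - i - 1) ≤ i) := by omega
      simp only [h1, if_false]
      rw [← hqk]; congr 1; omega
    · intro m hm
      by_cases h1 : m + 1 ≤ i
      · have h2 : m ≤ i := by omega
        simp only [h1, h2, if_true]
        exact hadj m (by omega)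
      · by_cases h2 : m ≤ i
        · have h3 : m = i := by omega
          subst h3
          simp only [le_refl, if_true, h1, if_false]
          have h4 : m + 1 + (j - m - 1) = j := by omega
          rw [h4]; exact hadj'
        · simp only [h1, h2, if_false]
          have h4 : m + 1 + (j - i - 1) = m + (j - i - 1) + 1 := by omega
          rw [h4]
          exact hadj _ (by omega)
    · intro m hm1 hm2
      by_cases h2 : m ≤ i
      · simp only [h2, if_true]; exact hin m hm1 (by omega)
      · simp only [h2, if_false]; exact hin _ (by omega) (by omega)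
  have hinj : ∀ i j, i < j → j ≤ k → q i ≠ q j := by
    intro i j hij hjk heq
    by_cases hjk' : j = k
    · subst hjk'
      rcases Nat.eq_zero_or_pos i with h0 | h0
      · subst h0
        rw [hq0, hqk] at heq
        exact hxy heq
      · have := hin i h0 hij
        rw [heq, hqk] at this
        exact hyH this
    · have h1 := hadj j (by omega)
      rw [← heq] at h1
      exact hshort i (j + 1) (by omega) (by omega) h1
  have hk2 : 2 ≤ k := by
    rcases Nat.lt_or_ge k 2 with h | h
    · exfalso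
      interval_cases k
      · rw [hq0] at hqk; exact hxy hqk
      · have := hadj 0 (by norm_num)
        rw [hq0] at this
        simp only [zero_add] at this
        rw [hqk] at this
        exact hnadj this
    · exact h
  have hvq : ∀ i ≤ k, (v ≠ q i) ∧ (G.Adj v (q i) ↔ (i = 0 ∨ i = k)) := by
    intro i hi
    rcases Nat.eq_zero_or_pos i with h0 | h0
    · subst h0
      rw [hq0]
      exact ⟨hvx.ne, by simp [hvx]⟩
    · by_cases hik : i = k
      · subst hik
        rw [hqk]
        exact ⟨hvy.ne, by simp [hvy]⟩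
      · have := hvH _ (hin i h0 (by omega))
        exact ⟨this.1.symm, by simp [this.2]; omega⟩
  let e : ℕ → V := fun a => if a ≤ k then q a else v
  have he1 : ∀ a ≤ k, e a = q a := fun a ha => by simp [e, ha]
  have he2 : e (k + 1) = v := by simp [e]
  obtain ⟨i, j, hij, hj, hne, hadj'⟩ := chord_seq hG e (k + 1) (by omega) (by
      intro i hi
      by_cases hik : i = k
      · subst hik
        rw [he1 i le_rfl, he2, hqk]
        exact hvy.symm
      · rw [he1 i (by omega), he1 (i + 1) (by omega)]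
        exact hadj i (by omega))
    (by rw [he2, he1 0 (by omega), hq0]; exact hvx) (by
      intro i j hij hj
      by_cases hjk : j = k + 1
      · subst hjk
        rw [he2, he1 i (by omega)]
        exact (hvq i (by omega)).1.symm
      · rw [he1 i (by omega), he1 j (by omega)]
        exact hinj i j hij (by omega))
  by_cases hjk : j = k + 1
  · subst hjk
    rw [he2, he1 i (by omega)] at hadj'
    have := (hvq i (by omega)).2.1 hadj'.symm
    omega
  · rw [he1 i (by omega), he1 j (by omega)] at hadj'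
    exact hshort i j hij (by omega) hadj'

lemma path_of_rtg {H : V → Prop} {a b : V}
    (h : Relation.ReflTransGen (fun a b => G.Adj a b ∧ H a ∧ H b) a b) (ha : H a) :
    ∃ (k : ℕ) (q : ℕ → V), q 0 = a ∧ q k = b ∧ (∀ i < k, G.Adj (q i) (q (i + 1))) ∧
      ∀ i ≤ k, H (q i) := by
  induction h with
  | refl => exact ⟨0, fun _ => a, rfl, rfl, by simp, fun _ _ => ha⟩
  | @tail b c _ hbc ih =>
    obtain ⟨k, q, h0, hk, hadj, hH⟩ := ih
    refine ⟨k + 1, fun m => if m ≤ k then q m else c, ?_, ?_, ?_, ?_⟩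
    · simp [h0]
    · simp
    · intro i hi
      by_cases h1 : i = k
      · subst h1
        simp only [le_refl, if_true, Nat.not_succ_le_self, if_false]
        rw [hk]; exact hbc.1
      · have h2 : i ≤ k := by omega
        have h3 : i + 1 ≤ k := by omega
        simp only [h2, h3, if_true]
        exact hadj i (by omega)
    · intro i hi
      by_cases h2 : i ≤ k
      · simp only [h2, if_true]; exact hH i h2
      · simp only [h2, if_false]; exact hbc.2.2

lemma exists_simplicial (hG : IsChordal G) : ∀ (n : ℕ) (s : Finset V), s.card ≤ n →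
    ∀ v ∈ s, ∀ w ∈ s, w ≠ v → ¬ G.Adj v w →
    ∃ z ∈ s, z ≠ v ∧ ¬ G.Adj v z ∧
      (∀ a ∈ s, ∀ b ∈ s, G.Adj z a → G.Adj z b → a ≠ b → G.Adj a b) := by
  intro n
  induction n with
  | zero =>
    intro s hs v hv
    rw [Nat.le_zero, Finset.card_eq_zero] at hs
    subst hs
    simp at hv
  | succ n ih =>
    intro s hs v hv w hw hwv hvw
    let R : V → V → Prop := fun a b => G.Adj a b ∧ b ∈ s ∧ b ≠ v ∧ ¬ G.Adj v b
    let H : V → Prop := fun h => Relation.ReflTransGen R w h
    have hHw : H w := Relation.ReflTransGen.refl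
    have hHp : ∀ h, H h → h ∈ s ∧ h ≠ v ∧ ¬ G.Adj v h := by
      intro h hh
      rcases Relation.ReflTransGen.cases_tail hh with h1 | ⟨c, _, hc⟩
      · rw [h1]; exact ⟨hw, hwv, hvw⟩
      · exact hc.2
    have hHcl : ∀ h a, H h → G.Adj h a → a ∈ s → a ≠ v → ¬ G.Adj v a → H a := by
      intro h a hh h1 h2 h3 h4
      exact Relation.ReflTransGen.tail hh ⟨h1, h2, h3, h4⟩
    have hHR : ∀ h, H h → Relation.ReflTransGen (fun a b => G.Adj a b ∧ H a ∧ H b) w h := by
      intro h hh
      induction hh with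
      | refl => exact Relation.ReflTransGen.refl
      | @tail b c hb hbc ih2 =>
        exact Relation.ReflTransGen.tail ih2 ⟨hbc.1, hb, Relation.ReflTransGen.tail hb hbc⟩
    have hsymm : ∀ a b, Relation.ReflTransGen (fun a b => G.Adj a b ∧ H a ∧ H b) a b →
        Relation.ReflTransGen (fun a b => G.Adj a b ∧ H a ∧ H b) b a := by
      intro a b h
      induction h with
      | refl => exact Relation.ReflTransGen.refl
      | @tail b c _ hbc ih2 =>
        exact Relation.ReflTransGen.head ⟨hbc.1.symm, hbc.2.2, hbc.2.1⟩ ih2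
    let T : Finset V := s.filter (fun x => H x ∨ (G.Adj v x ∧ ∃ h, H h ∧ G.Adj x h))
    have hTs : T ⊆ s := Finset.filter_subset _ _
    have hvT : v ∉ T := by
      intro h
      rw [Finset.mem_filter] at h
      rcases h.2 with h1 | h1
      · exact (hHp v h1).2.1 rfl
      · exact G.loopless.irrefl v h1.1
    have hTcard : T.card ≤ n := by
      have : T.card < s.card := Finset.card_lt_card ⟨hTs, fun h => hvT (h hv)⟩
      omega
    have hclique : ∀ x y, G.Adj v x → (∃ h, H h ∧ G.Adj x h) → G.Adj v y →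
        (∃ h, H h ∧ G.Adj y h) → x ≠ y → G.Adj x y := by
      rintro x y hvx ⟨h1, hh1, hx1⟩ hvy ⟨h2, hh2, hy2⟩ hxy
      apply clique_sep hG (H := H) (fun h hh => (hHp h hh).2) hvx hvy hxy
      have hr : Relation.ReflTransGen (fun a b => G.Adj a b ∧ H a ∧ H b) h1 h2 :=
        (hsymm _ _ (hHR h1 hh1)).trans (hHR h2 hh2)
      obtain ⟨k, q, h0, hk, hadj, hH⟩ := path_of_rtg hr hh1
      refine ⟨k + 2, fun m => if m = 0 then x else if m ≤ k + 1 then q (m - 1) else y,
        ?_, ?_, ?_, ?_⟩
      · simp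
      · simp
      · intro i hi
        rcases Nat.eq_zero_or_pos i with hi0 | hi0
        · subst hi0
          simp [h0, hx1]
        · have hi1 : i ≠ 0 := by omega
          have hi2 : i + 1 ≠ 0 := by omega
          have hi3 : i ≤ k + 1 := by omega
          simp only [hi1, hi2, hi3, if_false, if_true]
          by_cases hi4 : i + 1 ≤ k + 1
          · simp only [hi4, if_true]
            have := hadj (i - 1) (by omega)
            rw [show i - 1 + 1 = i + 1 - 1 by omega] at this
            exact this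
          · simp only [hi4, if_false]
            have : i - 1 = k := by omega
            rw [this, hk]
            exact hy2.symm
      · intro i hi hi'
        have hi1 : i ≠ 0 := by omega
        have hi3 : i ≤ k + 1 := by omega
        simp only [hi1, hi3, if_false, if_true]
        exact hH _ (by omega)
    -- find `z` in `H`, simplicial in `T`
    obtain ⟨z, hzH, hzsimp⟩ : ∃ z, H z ∧
        (∀ a ∈ T, ∀ b ∈ T, G.Adj z a → G.Adj z b → a ≠ b → G.Adj a b) := by
      by_cases h1 : ∃ x ∈ T, ¬ H x ∧ ∃ y ∈ T, y ≠ x ∧ ¬ G.Adj x y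
      · obtain ⟨x, hxT, hxH, y, hyT, hyx, hxy⟩ := h1
        obtain ⟨z, hzT, hzx, hxz, hz⟩ := ih T hTcard x hxT y hyT hyx hxy
        refine ⟨z, ?_, hz⟩
        by_contra hzH
        have hxS := (Finset.mem_filter.mp hxT).2.resolve_left hxH
        have hzS := (Finset.mem_filter.mp hzT).2.resolve_left hzH
        exact hxz (hclique x z hxS.1 hxS.2 hzS.1 hzS.2 hzx.symm)
      · by_cases h2 : ∃ x ∈ T, ∃ y ∈ T, y ≠ x ∧ ¬ G.Adj x y
        · obtain ⟨x, hxT, y, hyT, hyx, hxy⟩ := h2
          obtain ⟨z, hzT, hzx, hxz, hz⟩ := ih T hTcard x hxT y hyT hyx hxy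
          refine ⟨z, ?_, hz⟩
          by_contra hzH
          exact h1 ⟨z, hzT, hzH, x, hxT, hzx.symm, fun h => hxz h.symm⟩
        · refine ⟨w, hHw, ?_⟩
          intro a ha b hb _ _ hab
          by_contra hnab
          exact h2 ⟨a, ha, b, hb, hab.symm, hnab⟩
    have hzp := hHp z hzH
    refine ⟨z, hzp.1, hzp.2.1, hzp.2.2, ?_⟩
    have hmemT : ∀ a ∈ s, G.Adj z a → a ∈ T := by
      intro a ha hza
      rw [Finset.mem_filter]
      refine ⟨ha, ?_⟩
      by_cases hva : G.Adj v a
      · right
        exact ⟨hva, z, hzH, hza.symm⟩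
      · left
        apply hHcl z a hzH hza ha _ hva
        rintro rfl
        exact hzp.2.2 hza.symm
    intro a ha b hb hza hzb hab
    exact hzsimp a (hmemT a ha hza) b (hmemT b hb hzb) hza hzb hab

/-- Every nonempty finite vertex set contains a vertex that is simplicial in it. -/
lemma exists_simplicial' (hG : IsChordal G) (s : Finset V) (hne : s.Nonempty) :
    ∃ z ∈ s, (∀ a ∈ s, ∀ b ∈ s, G.Adj z a → G.Adj z b → a ≠ b → G.Adj a b) := by
  by_cases h : ∃ x ∈ s, ∃ y ∈ s, y ≠ x ∧ ¬ G.Adj x y
  · obtain ⟨x, hx, y, hy, hyx, hxy⟩ := h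
    obtain ⟨z, hz1, _, _, hz2⟩ := exists_simplicial hG s.card s le_rfl x hx y hy hyx hxy
    exact ⟨z, hz1, hz2⟩
  · obtain ⟨z, hz⟩ := hne
    refine ⟨z, hz, ?_⟩
    intro a ha b hb _ _ hab
    by_contra hnab
    exact h ⟨a, ha, b, hb, hab.symm, hnab⟩

end Pool.Agent.H210Z.ST
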